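import Pool.Agent.K6.H14.EX.Stm

/-!
# Norm estimates in tracial von Neumann algebras
-/

set_option autoImplicit false

namespace Pool.Agent.K6.H14.EX

open Pool.Agent.H504R3 (TVN)
open Pool.Agent.H667R2.FG (Ell Op lam rho delta LG EltG tau)
open Pool.Agent.R283.GV
open Pool.Agent.Helper278
open Filter Topology
open scoped InnerProductSpace

section

variable (T : TVN)

/-- the trace as a tracial state in the sense of `Helper278` -/
noncomputable def tstate : TracialState T.N := ⟨T.τ, T.normal, T.map_one, T.tracial, T.faithful⟩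

theorem trAlg : TrAlg T.τ := Pool.Agent.Helper278.trAlg (tstate T)

theorem norm2_eq_n2 (x : T.E) : T.norm2 x = n2 T.τ x := rfl

theorem op_nonneg (x : T.E) : 0 ≤ T.opNorm x := norm_nonneg _

theorem op_add (x y : T.E) : T.opNorm (x + y) ≤ T.opNorm x + T.opNorm y :=
  norm_add_le (x : T.H →L[ℂ] T.H) (y : T.H →L[ℂ] T.H)

theorem op_mul (x y : T.E) : T.opNorm (x * y) ≤ T.opNorm x * T.opNorm y :=
  norm_mul_le (x : T.H →L[ℂ] T.H) (y : T.H →L[ℂ] T.H)

theorem op_star (x : T.E) : T.opNorm (star x) = T.opNorm x :=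
  norm_star (x : T.H →L[ℂ] T.H)

theorem op_smul (c : ℂ) (x : T.E) : T.opNorm (c • x) = ‖c‖ * T.opNorm x :=
  norm_smul c (x : T.H →L[ℂ] T.H)

theorem op_zero : T.opNorm 0 = 0 := norm_zero (E := T.H →L[ℂ] T.H)

theorem op_one : T.opNorm 1 ≤ 1 := ContinuousLinearMap.norm_id_le (𝕜 := ℂ) (E := T.H)

theorem norm2_nonneg (x : T.E) : 0 ≤ T.norm2 x := Real.sqrt_nonneg _

theorem norm2_add (x y : T.E) : T.norm2 (x + y) ≤ T.norm2 x + T.norm2 y := (trAlg T).n2_add_le x y

theorem norm2_star (x : T.E) : T.norm2 (star x) = T.norm2 x := (trAlg T).n2_star x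

theorem norm2_sq (x : T.E) : T.norm2 x ^ 2 = (T.τ (star x * x)).re := (trAlg T).n2_sq x

theorem norm2_mul_left (x y : T.E) : T.norm2 (x * y) ≤ T.opNorm x * T.norm2 y :=
  Pool.Agent.Helper278.n2_mul_le (tstate T) x y

theorem norm2_mul_right (x y : T.E) : T.norm2 (x * y) ≤ T.norm2 x * T.opNorm y := by
  rw [mul_comm]
  exact Pool.Agent.Helper278.n2_mul_le' (tstate T) x y

theorem norm2_one : T.norm2 1 = 1 := by
  have h := norm2_sq T 1
  rw [star_one, one_mul, T.map_one, Complex.one_re] at h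
  have h0 := norm2_nonneg T 1
  nlinarith

theorem norm2_le_op (x : T.E) : T.norm2 x ≤ T.opNorm x := by
  have h := norm2_mul_left T x 1
  rwa [mul_one, norm2_one, mul_one] at h

theorem tau_le (x : T.E) : ‖T.τ x‖ ≤ T.norm2 x := by
  have h := (trAlg T).cauchy 1 x
  rw [star_one, one_mul] at h
  have h1 : n2 T.τ 1 = 1 := norm2_one T
  rw [h1, one_mul] at h
  exact h

theorem norm2_zero : T.norm2 0 = 0 := (trAlg T).n2_zero

theorem norm2_smul (c : ℂ) (x : T.E) : T.norm2 (c • x) = ‖c‖ * T.norm2 x := by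
  have h1 := norm2_sq T (c • x)
  have h2 := norm2_sq T x
  have e : T.τ (star (c • x) * (c • x)) = ((‖c‖ ^ 2 : ℝ) : ℂ) * T.τ (star x * x) := by
    rw [star_smul, smul_mul_smul_comm, map_smul, smul_eq_mul]
    congr 1
    rw [Complex.star_def, ← Complex.normSq_eq_conj_mul_self, Complex.normSq_eq_norm_sq]
  rw [e, Complex.re_ofReal_mul, ← h2, ← mul_pow] at h1
  exact (sq_eq_sq₀ (norm2_nonneg T _) (mul_nonneg (norm_nonneg c) (norm2_nonneg T x))).1 h1

theorem norm2_self (w : T.E) : T.norm2 (w - w) = 0 := by rw [sub_self, norm2_zero]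

theorem norm2_sub_comm (x y : T.E) : T.norm2 (x - y) = T.norm2 (y - x) := (trAlg T).n2_sub_comm x y

theorem norm2_tri (x y z : T.E) : T.norm2 (x - z) ≤ T.norm2 (x - y) + T.norm2 (y - z) :=
  (trAlg T).n2_tri x y z

/-- `lim norm2 = 0` from eventual bounds -/
theorem tendsto_of_le {f : ℕ → T.E} (h : ∀ ε : ℝ, 0 < ε → ∀ᶠ n in atTop, T.norm2 (f n) ≤ ε) :
    Tendsto (fun n => T.norm2 (f n)) atTop (𝓝 0) := by
  rw [Metric.tendsto_nhds]
  intro ε hε
  filter_upwards [h (ε / 2) (half_pos hε)] with n hn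
  rw [Real.dist_eq, sub_zero, abs_of_nonneg (norm2_nonneg T _)]
  linarith

end

section group

variable {G : Type} [Group G]

theorem norm2_eq (x : (tvn G).E) : (tvn G).norm2 x = ‖vec x‖ := by
  have h : (tvn G).norm2 x = Real.sqrt (tau (star (toOp x) * (toOp x))).re := rfl
  rw [h, Pool.Agent.H667R2.FG.tau_star_mul, Complex.ofReal_re, Real.sqrt_sq (norm_nonneg _)]
  rfl

theorem vec_sub (x y : (tvn G).E) : vec (x - y) = vec x - vec y := rfl

theorem tau_iotaT (H : Subgroup G) (x : (tvn H).E) : (tvn G).τ (iotaT H x) = (tvn H).τ x :=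
  tau_iota (K := H) x

theorem op_iotaT (H : Subgroup G) (x : (tvn H).E) :
    (tvn G).opNorm (iotaT H x) = (tvn H).opNorm x := norm_iota (K := H) x

theorem norm2_iotaT (H : Subgroup G) (x : (tvn H).E) :
    (tvn G).norm2 (iotaT H x) = (tvn H).norm2 x := by
  unfold TVN.norm2
  rw [← map_star, ← map_mul, tau_iotaT]

end group

end Pool.Agent.K6.H14.EX
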