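import Pool.Agent.K6.H14.EX.Base

/-!
# Cutting down to the norm of `y` (piece CUT, helper85)

`b = a f(a* a)` with `f(t) = c / max(c, √t)`; `‖a - b‖₂² = τ(g(a* a))` with `g(t) = t (1 - f(t))²`,
which is zero on `[0, c²]`, and `g` is approximated by polynomials.
-/

set_option autoImplicit false

namespace Pool.Agent.K6.H14.EX

open Pool.Agent.H504R3 (TVN)
open Pool.Agent.Helper278 (cfc_mem)
open Filter Topology

namespace Cut

/-- the cut-off function -/
noncomputable def F (c t : ℝ) : ℝ := c / max c (Real.sqrt t)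

/-- the function which measures the difference -/
noncomputable def Gf (c t : ℝ) : ℝ := (1 - F c t) * (t * (1 - F c t))

theorem F_cont {c : ℝ} (hc : 0 < c) : Continuous (F c) :=
  continuous_const.div (continuous_const.max Real.continuous_sqrt)
    fun _ => (lt_of_lt_of_le hc (le_max_left _ _)).ne'

theorem Gf_cont {c : ℝ} (hc : 0 < c) : Continuous (Gf c) := by
  have := F_cont hc
  unfold Gf
  fun_prop

theorem F_bound {c t : ℝ} (hc : 0 < c) (ht : 0 ≤ t) : |F c t * (t * F c t)| ≤ c ^ 2 := by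
  have h1 : 0 < max c (Real.sqrt t) := lt_of_lt_of_le hc (le_max_left _ _)
  have h2 : F c t * (t * F c t) = c ^ 2 * (t / max c (Real.sqrt t) ^ 2) := by
    unfold F
    field_simp
  have h3 : t ≤ max c (Real.sqrt t) ^ 2 := by
    calc t = Real.sqrt t ^ 2 := (Real.sq_sqrt ht).symm
      _ ≤ max c (Real.sqrt t) ^ 2 := by
        gcongr
        exact le_max_right _ _
  rw [h2, abs_of_nonneg (by positivity)]
  calc c ^ 2 * (t / max c (Real.sqrt t) ^ 2) ≤ c ^ 2 * 1 := by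
        gcongr
        rw [div_le_one (by positivity)]
        exact h3
    _ = c ^ 2 := mul_one _

theorem Gf_zero {c t : ℝ} (hc : 0 < c) (ht : t ≤ c ^ 2) : Gf c t = 0 := by
  have h1 : Real.sqrt t ≤ c := by
    rw [Real.sqrt_le_left hc.le]
    exact ht
  have h2 : F c t = 1 := by
    unfold F
    rw [max_eq_left h1, div_self hc.ne']
  unfold Gf
  rw [h2, sub_self, zero_mul]

section

variable (T : TVN)

/-- `a* a` as an operator -/
noncomputable abbrev sq (a : T.E) : T.H →L[ℂ] T.H :=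
  star (a : T.H →L[ℂ] T.H) * (a : T.H →L[ℂ] T.H)

variable {T}

theorem sq_nonneg' (a : T.E) : 0 ≤ sq T a := star_mul_self_nonneg _

theorem sq_sa (a : T.E) : IsSelfAdjoint (sq T a) := IsSelfAdjoint.of_nonneg (sq_nonneg' a)

theorem spec (a : T.E) {C : ℝ} (ha : T.opNorm a ≤ C) {t : ℝ} (ht : t ∈ spectrum ℝ (sq T a)) :
    0 ≤ t ∧ t ≤ C ^ 2 := by
  have h1 := spectrum_nonneg_of_nonneg (sq_nonneg' a) ht
  refine ⟨h1, ?_⟩
  have h2 : ‖t‖ ≤ ‖sq T a‖ := by
    have h3 := spectrum.norm_le_norm_mul_of_mem ht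
    have h4 : ‖(1 : T.H →L[ℂ] T.H)‖ ≤ 1 := ContinuousLinearMap.norm_id_le
    exact h3.trans (mul_le_of_le_one_right (norm_nonneg _) h4)
  have h3 : ‖sq T a‖ = ‖(a : T.H →L[ℂ] T.H)‖ * ‖(a : T.H →L[ℂ] T.H)‖ :=
    CStarRing.norm_star_mul_self
  have h4 : ‖(a : T.H →L[ℂ] T.H)‖ ≤ C := ha
  have h5 := norm_nonneg (a : T.H →L[ℂ] T.H)
  rw [Real.norm_of_nonneg h1, h3] at h2
  nlinarith

/-- the trace is at most the norm -/
theorem tau_op (x : T.E) : ‖T.τ x‖ ≤ T.opNorm x := (tau_le T x).trans (norm2_le_op T x)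

/-- a polynomial in an element -/
noncomputable def pev (T : TVN) (h : T.E) (p : Polynomial ℝ) : T.E :=
  ∑ i ∈ Finset.range (p.natDegree + 1), ((p.coeff i : ℝ) : ℂ) • h ^ i

theorem pev_coe (a : T.E) (p : Polynomial ℝ) :
    ((pev T (star a * a) p : T.E) : T.H →L[ℂ] T.H) = cfc (fun t => p.eval t) (sq T a) := by
  have h1 : cfc (fun t => p.eval t) (sq T a) = Polynomial.aeval (sq T a) p :=
    cfc_polynomial p (sq T a) (sq_sa a)
  rw [h1, Polynomial.aeval_eq_sum_range]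
  unfold pev
  rw [AddSubmonoidClass.coe_finsetSum]
  refine Finset.sum_congr rfl fun i _ => ?_
  have h2 : (((((p.coeff i : ℝ) : ℂ) • (star a * a) ^ i : T.E)) : T.H →L[ℂ] T.H) =
      ((p.coeff i : ℝ) : ℂ) • (sq T a) ^ i := rfl
  rw [h2, Complex.coe_smul]

/-- the trace of a polynomial in `y* y` -/
theorem tau_pev (y : T.E) {c ε : ℝ} (hy : T.opNorm y ≤ c) (hε : 0 ≤ ε) (p : Polynomial ℝ)
    (hp : ∀ t, 0 ≤ t → t ≤ c ^ 2 → |p.eval t| ≤ ε) : ‖T.τ (pev T (star y * y) p)‖ ≤ ε := by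
  refine (tau_op _).trans ?_
  show ‖((pev T (star y * y) p : T.E) : T.H →L[ℂ] T.H)‖ ≤ ε
  rw [pev_coe]
  refine norm_cfc_le hε fun t ht => ?_
  obtain ⟨h1, h2⟩ := spec y hy ht
  exact hp t h1 h2

/-- the element -/
theorem exists_cut (a : T.E) {c : ℝ} (hc : 0 < c) : ∃ b : T.E, T.opNorm b ≤ c ∧
    ∀ (C ε : ℝ) (p : Polynomial ℝ), T.opNorm a ≤ C → 0 ≤ ε →
      (∀ t, 0 ≤ t → t ≤ C ^ 2 → |p.eval t - Gf c t| ≤ ε) →
      T.norm2 (a - b) ^ 2 ≤ (T.τ (pev T (star a * a) p)).re + ε := by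
  have hsa := sq_sa a
  have hN : sq T a ∈ T.N := (star a * a).2
  have hFc := F_cont hc
  obtain ⟨φ, hφ⟩ : ∃ φ, φ = cfc (F c) (sq T a) := ⟨_, rfl⟩
  have hφN : φ ∈ T.N := by rw [hφ]; exact cfc_mem T.N _ _ hN hsa
  have hφs : star φ = φ := by rw [hφ]; exact (cfc_predicate _ _ : IsSelfAdjoint _).star_eq
  let Φ : T.E := ⟨φ, hφN⟩
  refine ⟨a * Φ, ?_, fun C ε p ha hε hp => ?_⟩
  · have h1 : ‖(a : T.H →L[ℂ] T.H) * φ‖ * ‖(a : T.H →L[ℂ] T.H) * φ‖ ≤ c * c := by
      rw [← CStarRing.norm_star_mul_self]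
      have h2 : star ((a : T.H →L[ℂ] T.H) * φ) * ((a : T.H →L[ℂ] T.H) * φ) =
          φ * (sq T a * φ) := by
        rw [star_mul, hφs]
        simp only [sq, mul_assoc]
      have h3 : φ * (sq T a * φ) = cfc (fun t => F c t * (t * F c t)) (sq T a) := by
        rw [cfc_mul (F c) (fun t => t * F c t) _ hFc.continuousOn (by fun_prop),
          cfc_mul (fun t : ℝ => t) (F c) _ continuousOn_id hFc.continuousOn, cfc_id' ℝ _ hsa, ← hφ]
      rw [h2, h3, ← _root_.sq]
      refine norm_cfc_le (by positivity) fun t ht => ?_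
      exact F_bound hc (spectrum_nonneg_of_nonneg (sq_nonneg' a) ht)
    show ‖(a : T.H →L[ℂ] T.H) * φ‖ ≤ c
    nlinarith [norm_nonneg ((a : T.H →L[ℂ] T.H) * φ)]
  · rw [norm2_sq]
    have h1 : ((star (a - a * Φ) * (a - a * Φ) : T.E) : T.H →L[ℂ] T.H) =
        cfc (Gf c) (sq T a) := by
      have h2 : (1 : T.H →L[ℂ] T.H) - φ = cfc (fun t => 1 - F c t) (sq T a) := by
        rw [cfc_sub (fun _ => (1 : ℝ)) (F c) _ continuousOn_const hFc.continuousOn,
          cfc_const_one ℝ _ hsa, ← hφ]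
      have h3 : ((star (a - a * Φ) * (a - a * Φ) : T.E) : T.H →L[ℂ] T.H) =
          (1 - φ) * (sq T a * (1 - φ)) := by
        show star ((a : T.H →L[ℂ] T.H) - (a : T.H →L[ℂ] T.H) * φ) *
          ((a : T.H →L[ℂ] T.H) - (a : T.H →L[ℂ] T.H) * φ) = _
        rw [star_sub, star_mul, hφs]
        simp only [sq]
        noncomm_ring
      have hFc' : Continuous (fun t => 1 - F c t) := by fun_prop
      rw [h3, h2]
      conv_rhs => rw [show Gf c = fun t => (1 - F c t) * (t * (1 - F c t)) from rfl]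
      rw [cfc_mul (fun t => 1 - F c t) (fun t => t * (1 - F c t)) _ hFc'.continuousOn
          (by fun_prop),
        cfc_mul (fun t : ℝ => t) (fun t => 1 - F c t) _ continuousOn_id hFc'.continuousOn,
        cfc_id' ℝ _ hsa]
    have h4 : ‖T.τ (pev T (star a * a) p - star (a - a * Φ) * (a - a * Φ))‖ ≤ ε := by
      refine (tau_op _).trans ?_
      show ‖((pev T (star a * a) p : T.E) : T.H →L[ℂ] T.H) -
        ((star (a - a * Φ) * (a - a * Φ) : T.E) : T.H →L[ℂ] T.H)‖ ≤ ε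
      rw [h1, pev_coe, ← cfc_sub _ _ _ p.continuous.continuousOn (Gf_cont hc).continuousOn]
      refine norm_cfc_le hε fun t ht => ?_
      obtain ⟨h5, h6⟩ := spec a ha ht
      exact hp t h5 h6
    rw [map_sub] at h4
    have h5 := (Complex.abs_re_le_norm _).trans h4
    rw [Complex.sub_re] at h5
    have h6 := (abs_le.1 h5).1
    linarith

end

end Cut

open Cut in
/-- **CUT.** -/
theorem t_CUT : S_CUT := by
  intro M N y a C hC hmom
  rcases (op_nonneg M y).eq_or_lt with hc | hc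
  · -- `y = 0`
    have hy : y = 0 := Subtype.ext (norm_eq_zero.1 hc.symm)
    refine ⟨fun _ => 0, fun n => by rw [op_zero]; exact hc.le, ?_⟩
    refine tendsto_const_nhds.congr' ?_
    filter_upwards [hmom 1] with n hn
    rw [pow_one, pow_one, hy, mul_zero, map_zero] at hn
    rw [sub_zero, N.faithful _ hn, norm2_zero]
  · choose b hb hb2 using fun n => exists_cut (a n) hc
    refine ⟨b, hb, ?_⟩
    rw [Metric.tendsto_atTop]
    intro ε hε
    obtain ⟨η, hη, hη2⟩ : ∃ η : ℝ, 0 < η ∧ 2 * η < ε ^ 2 := ⟨ε ^ 2 / 4, by positivity, by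
      have : 0 < ε ^ 2 := by positivity
      linarith⟩
    obtain ⟨R, hR⟩ : ∃ R : ℝ, R = max C (M.opNorm y) := ⟨_, rfl⟩
    obtain ⟨p, hp⟩ : ∃ p : Polynomial ℝ, ∀ t ∈ Set.Icc 0 (R ^ 2),
        |p.eval t - Gf (M.opNorm y) t| < η :=
      exists_polynomial_near_of_continuousOn 0 (R ^ 2) _ (Gf_cont hc).continuousOn η hη
    have hR0 : 0 ≤ R := by rw [hR]; exact hc.le.trans (le_max_right _ _)
    have h1 : ‖M.τ (pev M (star y * y) p)‖ ≤ η := by
      refine tau_pev y le_rfl hη.le p fun t h0 ht => ?_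
      have h2 := hp t ⟨h0, ht.trans (by
        have : M.opNorm y ≤ R := by rw [hR]; exact le_max_right _ _
        gcongr)⟩
      rw [Gf_zero hc ht, sub_zero] at h2
      exact h2.le
    have h2 : ∀ᶠ n in atTop, N.τ (pev N (star (a n) * a n) p) = M.τ (pev M (star y * y) p) := by
      have h3 : ∀ᶠ n in atTop, ∀ i ∈ Finset.range (p.natDegree + 1),
          N.τ ((star (a n) * a n) ^ i) = M.τ ((star y * y) ^ i) :=
        (Filter.eventually_all_finset _).2 fun i _ => hmom i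
      filter_upwards [h3] with n hn
      unfold pev
      rw [map_sum, map_sum]
      refine Finset.sum_congr rfl fun i hi => ?_
      rw [map_smul, map_smul, hn i hi]
    obtain ⟨n₀, hn₀⟩ := eventually_atTop.1 h2
    refine ⟨n₀, fun n hn => ?_⟩
    rw [Real.dist_0_eq_abs, abs_of_nonneg (norm2_nonneg N _)]
    have h4 := hb2 n R η p ((hC n).trans (by rw [hR]; exact le_max_left _ _)) hη.le
      fun t h0 ht => (hp t ⟨h0, ht⟩).le
    rw [hn₀ n hn] at h4
    have h5 := (le_abs_self _).trans ((Complex.abs_re_le_norm _).trans h1)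
    have h6 : N.norm2 (a n - b n) ^ 2 < ε ^ 2 := by linarith
    exact lt_of_pow_lt_pow_left₀ 2 hε.le h6

end Pool.Agent.K6.H14.EX
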