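import Mathlib
import Pool.Agent.R283.GV.VN
import Pool.Agent.H504R3.Defs
import Pool.Agent.Helper278.Model

/-!
# Existential embeddings, the Haagerup property and property (T) for tracial von Neumann algebras
-/

set_option autoImplicit false

namespace Pool.Agent.K6.H14.EX

open Pool.Agent.H504R3 (TVN)
open Pool.Agent.H667R2.FG (Ell Op lam rho delta LG EltG tau)
open Pool.Agent.R283.GV
open Filter Topology
open scoped InnerProductSpace BoundedContinuousFunction

/-! ## Tracial von Neumann algebras -/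

/-- `φ` is a unital, trace preserving, completely positive map of `M` into itself, which induces a
compact operator on `L²(M)`: the image of the unit ball of the 2-norm is totally bounded in the
2-norm.  (Trace preserving positive maps are normal, as the trace is normal and faithful.) -/
structure IsCompactCP (M : TVN) (φ : M.E →ₗ[ℂ] M.E) : Prop where
  one : φ 1 = 1
  trace : ∀ x, M.τ (φ x) = M.τ x
  /-- the matrix with the entries `φ (xᵢ* xⱼ)` is positive -/
  cp : ∀ (k : ℕ) (x : Fin k → M.E) (ξ : Fin k → M.H), ∃ r : ℝ, 0 ≤ r ∧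
    ∑ i, ∑ j, ⟪ξ i, ((φ (star (x i) * x j) : M.E) : M.H →L[ℂ] M.H) (ξ j)⟫_ℂ = (r : ℂ)
  compact : ∀ ε : ℝ, 0 < ε → ∃ F : Finset M.E, ∀ x : M.E, M.norm2 x ≤ 1 →
    ∃ y ∈ F, M.norm2 (φ x - y) < ε

/-- The Haagerup property: the identity is a limit, pointwise in the 2-norm, of (a net of) normal
unital trace preserving completely positive maps which induce compact operators on `L²(M)`. -/
def HasHaagerup (M : TVN) : Prop :=
  ∀ (F : Finset M.E) (ε : ℝ), 0 < ε → ∃ φ : M.E →ₗ[ℂ] M.E, IsCompactCP M φ ∧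
    ∀ x ∈ F, M.norm2 (φ x - x) < ε

/-- All the vector functionals `x ↦ ⟨ξ, L x ξ⟩` are normal: countable sums of vector functionals of
the Hilbert space on which `M` acts. -/
def IsNormalMap (M : TVN) {K : Type} [NormedAddCommGroup K] [InnerProductSpace ℂ K]
    (L : M.E → (K →L[ℂ] K)) : Prop :=
  ∀ ξ : K, ∃ a : ℕ → M.H, Summable (fun k => ‖a k‖ ^ 2) ∧
    ∀ x : M.E, ⟪ξ, L x ξ⟫_ℂ = ∑' k, ⟪a k, (x : M.H →L[ℂ] M.H) (a k)⟫_ℂ

/-- `K` is a Hilbert `M`-`M`-bimodule with the left action `L` and the right action `R`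
(`x ξ = L x ξ`, `ξ x = R x ξ`): `L` is a normal unital `*`-homomorphism, `R` a normal unital
`*`-antihomomorphism, and the ranges commute. -/
structure IsBimodule (M : TVN) {K : Type} [NormedAddCommGroup K] [InnerProductSpace ℂ K]
    [CompleteSpace K] (L : M.E →⋆ₐ[ℂ] (K →L[ℂ] K)) (R : M.E →ₗ[ℂ] (K →L[ℂ] K)) : Prop where
  right_one : R 1 = 1
  right_mul : ∀ x y, R (x * y) = R y * R x
  right_star : ∀ x, R (star x) = star (R x)
  comm : ∀ x y, L x * R y = R y * L x
  left_normal : IsNormalMap M (fun x => L x)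
  right_normal : IsNormalMap M (fun x => R x)

/-- Property (T) of Connes and Jones: there are a finite set `F` in `M` and `δ > 0` such that every
Hilbert `M`-`M`-bimodule with a unit vector `ξ` with `‖x ξ - ξ x‖ < δ` for `x ∈ F` has a nonzero
central vector. -/
def HasPropertyT (M : TVN) : Prop :=
  ∃ (F : Finset M.E) (δ : ℝ), 0 < δ ∧
    ∀ (K : Type) [NormedAddCommGroup K] [InnerProductSpace ℂ K] [CompleteSpace K]
      (L : M.E →⋆ₐ[ℂ] (K →L[ℂ] K)) (R : M.E →ₗ[ℂ] (K →L[ℂ] K)), IsBimodule M L R →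
      ∀ ξ : K, ‖ξ‖ = 1 → (∀ x ∈ F, ‖L x ξ - R x ξ‖ < δ) →
        ∃ η : K, η ≠ 0 ∧ ∀ x, L x η = R x η

/-- The embedding `ι : N → M` is existential (with respect to the ultrafilter `U`): there is a trace
preserving embedding `β` of `M` into the tracial ultrapower `Q` of `N` along `U` (`Q` is the quotient
of the algebra of bounded sequences, with the quotient map `π` and the trace `σ`, see
`Pool.Agent.Helper278.IsTracialUltrapower`) such that `β ∘ ι` is the diagonal embedding of `N`. -/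
def IsExistential {N M : TVN} (ι : N.E →⋆ₐ[ℂ] M.E) (U : Ultrafilter ℕ) : Prop :=
  ∃ (Q : Type) (_ : Ring Q) (_ : StarRing Q) (_ : Algebra ℂ Q) (_ : StarModule ℂ Q)
    (π : (ℕ →ᵇ N.E) →⋆ₐ[ℂ] Q) (σ : Q → ℂ),
    Pool.Agent.Helper278.IsTracialUltrapower (fun x : N.E => N.τ x) U π σ ∧
    ∃ β : M.E →⋆ₐ[ℂ] Q, (∀ x, σ (β x) = M.τ x) ∧
      ∀ x : N.E, β (ι x) = π (BoundedContinuousFunction.const ℕ x)

/-! ## Groups and their von Neumann algebras -/

/-- the trace `τ(x) = ⟨δ_1, x δ_1⟩` of `L(G)` -/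
noncomputable def tauL (G : Type) [Group G] : EltG G →ₗ[ℂ] ℂ where
  toFun x := tau (x : Op G)
  map_add' _ _ := rfl
  map_smul' _ _ := rfl

/-- The tracial von Neumann algebra `L(G)` of the group `G`: the bicommutant `LG G` of the left
translations `lam g` of `ℓ²(G)`, with the trace `τ(x) = ⟨δ_1, x δ_1⟩`. -/
noncomputable def tvn (G : Type) [Group G] : TVN where
  H := Ell G
  N := LG G
  τ := tauL G
  map_one := tau_one
  tracial := Pool.Agent.H667R2.FG.tau_mul_comm
  faithful := by
    intro x hx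
    have h1 : tau (star (x : Op G) * (x : Op G)) = 0 := hx
    rw [Pool.Agent.H667R2.FG.tau_star_mul] at h1
    have h2 : ‖(x : Op G) (delta 1)‖ ^ 2 = 0 := by exact_mod_cast h1
    have h3 : (x : Op G) (delta 1) = 0 := by
      rw [← norm_eq_zero]
      exact pow_eq_zero_iff (two_ne_zero) |>.1 h2
    exact Subtype.ext (Pool.Agent.H667R2.FG.eq_zero_of_delta x h3)
  normal := by
    classical
    refine ⟨fun k => if k = 0 then delta 1 else 0, ?_, ?_⟩
    · apply summable_of_ne_finset_zero (s := {0})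
      intro k hk
      have hk' : k ≠ 0 := by simpa using hk
      simp only [if_neg hk']
      simp
    · intro x
      rw [tsum_eq_single 0]
      · simp only [if_true]
        exact tau_eq_inner _
      · intro k hk
        simp only [if_neg hk]
        simp

/-- the operator of an element -/
noncomputable def toOp {G : Type} [Group G] (x : (tvn G).E) : Op G :=
  Subtype.val (p := fun y : Op G => y ∈ LG G) x

/-- the vector `x δ_1` of an element -/
noncomputable def vec {G : Type} [Group G] (x : (tvn G).E) : Ell G := toOp x (delta 1)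

/-- the embedding of `L(H)` in `L(G)`, `H` a subgroup of `G`: it maps `λ_h` to `λ_h`, and
`(ι x ξ)(g) = (x (ξ_g))(1)`, where `ξ_g(h) = ξ(h g)` for `h ∈ H` -/
noncomputable def iotaT {G : Type} [Group G] (H : Subgroup G) : (tvn H).E →⋆ₐ[ℂ] (tvn G).E :=
  iotaHom H


/-- every nontrivial element has infinitely many conjugates -/
def IsIcc (G : Type) [Group G] : Prop :=
  ∀ x : G, x ≠ 1 → {y : G | ∃ g : G, y = g * x * g⁻¹}.Infinite

/-- Kazhdan's property (T): there is a Kazhdan pair `(S, ε)` with `S` finite. -/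
def KazhdanT (G : Type) [Group G] : Prop :=
  ∃ S : Finset G, ∃ ε : ℝ, 0 < ε ∧
    ∀ (H : Type) [NormedAddCommGroup H] [InnerProductSpace ℂ H] [CompleteSpace H]
      (ρ : G →* unitary (H →L[ℂ] H)),
      (∃ x : H, ‖x‖ = 1 ∧ ∀ s ∈ S, ‖(ρ s : H →L[ℂ] H) x - x‖ < ε) →
        ∃ x : H, x ≠ 0 ∧ ∀ g : G, (ρ g : H →L[ℂ] H) x = x

/-! ## Auxiliary definitions for the proof -/

/-- the element `λ_g` of `L(G)` -/
noncomputable def lamT {G : Type} [Group G] (g : G) : (tvn G).E :=
  ⟨lam g, Pool.Agent.H667R2.FG.TL2.lam_mem g⟩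

/-- `θ x` is for each `x` a norm bounded sequence, and up to sequences which tend to `0` in the
2-norm `θ` is a unital trace preserving `*`-homomorphism. -/
structure IsLift (M N : TVN) (θ : M.E → ℕ → N.E) : Prop where
  bdd : ∀ x n, N.opNorm (θ x n) ≤ M.opNorm x
  one : Tendsto (fun n => N.norm2 (θ 1 n - 1)) atTop (𝓝 0)
  add : ∀ x y, Tendsto (fun n => N.norm2 (θ (x + y) n - (θ x n + θ y n))) atTop (𝓝 0)
  smul : ∀ (c : ℂ) x, Tendsto (fun n => N.norm2 (θ (c • x) n - c • θ x n)) atTop (𝓝 0)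
  mul : ∀ x y, Tendsto (fun n => N.norm2 (θ (x * y) n - θ x n * θ y n)) atTop (𝓝 0)
  star : ∀ x, Tendsto (fun n => N.norm2 (θ (star x) n - star (θ x n))) atTop (𝓝 0)
  trace : ∀ x, Tendsto (fun n => N.τ (θ x n)) atTop (𝓝 (M.τ x))

end Pool.Agent.K6.H14.EX
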