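import Pool.Agent.K6.H14.EX.Base

/-!
# EXT: from approximations of groups to approximations of their von Neumann algebras
-/

set_option autoImplicit false

namespace Pool.Agent.K6.H14.EX

open Pool.Agent.H504R3 (TVN)
open Pool.Agent.H667R2.FG (Ell Op lam rho delta LG EltG tau)
open Pool.Agent.R283.GV
open Filter Topology
open scoped InnerProductSpace

namespace Ext

/-- a sequence `κ` which tends to infinity so slowly that `P (κ n) n` -/
theorem diag (P : ℕ → ℕ → Prop) (hP : ∀ k, ∀ᶠ n in atTop, P k n) :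
    ∃ κ : ℕ → ℕ, Tendsto κ atTop atTop ∧ ∀ᶠ n in atTop, P (κ n) n := by
  classical
  refine ⟨fun n => Nat.findGreatest (fun k => P k n) n, ?_, ?_⟩
  · rw [tendsto_atTop]
    intro K
    filter_upwards [hP K, eventually_ge_atTop K] with n h1 h2
    exact Nat.le_findGreatest h2 h1
  · filter_upwards [hP 0] with n h
    exact Nat.findGreatest_spec (P := fun k => P k n) (Nat.zero_le n) h

section

variable {G : Type} [Group G]

theorem tau_lamT (g : G) [Decidable (g = 1)] : (tvn G).τ (lamT g) = if g = 1 then 1 else 0 := by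
  classical
  have h : (tvn G).τ (lamT g) = tau (lam g) := rfl
  rw [h, tau_eq_inner, Pool.Agent.H667R2.FG.TL2.lam_delta, mul_one,
    Pool.Agent.H667R2.FG.TL2.inner_delta, Pool.Agent.H667R2.FG.TL2.delta_apply]
  by_cases h1 : g = 1
  · simp [h1]
  · rw [if_neg h1, if_neg]
    exact fun e => h1 e.symm

theorem star_lamT (g : G) : star (lamT g) = lamT g⁻¹ := by
  apply Subtype.ext
  exact Pool.Agent.H667R2.FG.TL2.star_lam g

theorem op_lamT (g : G) : (tvn G).opNorm (lamT g) ≤ 1 := by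
  have h1 : (tvn G).opNorm (star (lamT g) * lamT g) = (tvn G).opNorm (lamT g) *
      (tvn G).opNorm (lamT g) := CStarRing.norm_star_mul_self (E := Ell G →L[ℂ] Ell G)
  have h2 : star (lamT g) * lamT g = 1 := by
    rw [star_lamT]
    apply Subtype.ext
    show lam g⁻¹ * lam g = (1 : Op G)
    rw [← Pool.Agent.H667R2.FG.TL2.lam_mul, inv_mul_cancel, Pool.Agent.H667R2.FG.TL2.lam_one]
  rw [h2] at h1
  have h3 := op_one (tvn G)
  have h4 := op_nonneg (tvn G) (lamT g)
  nlinarith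

/-- `λ` as a homomorphism -/
noncomputable def lamHom (G : Type) [Group G] : G →* (tvn G).E where
  toFun := lamT
  map_one' := Subtype.ext Pool.Agent.H667R2.FG.TL2.lam_one
  map_mul' g h := Subtype.ext (Pool.Agent.H667R2.FG.TL2.lam_mul g h)

theorem iotaT_lamT (H : Subgroup G) (h : H) : iotaT H (lamT h) = lamT (h : G) := by
  apply elt_ext (G := G)
  have h1 := iota_delta (K := H) (lamT h)
  have h2 : vec (lamT h) = delta h := by
    show lam h (delta 1) = delta h
    rw [Pool.Agent.H667R2.FG.TL2.lam_delta, mul_one]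
  have h3 : vec (lamT (h : G)) = delta (h : G) := by
    show lam (h : G) (delta 1) = delta (h : G)
    rw [Pool.Agent.H667R2.FG.TL2.lam_delta, mul_one]
  show vec (iotaT H (lamT h)) = vec (lamT (h : G))
  have h4 : vec (iotaT H (lamT h)) = ext0 H (vec (lamT h)) := h1
  rw [h3, h4, h2, ext0_delta]

end

section

variable {G : Type} [Group G] {H : Type} [Group H]

/-- the extension of a homomorphism `q : G → H` to the group algebra -/
noncomputable def pe (q : G →* H) : MonoidAlgebra ℂ G →ₐ[ℂ] (tvn H).E :=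
  MonoidAlgebra.lift ℂ (tvn H).E G ((lamHom H).comp q)

/-- the embedding of the group algebra -/
noncomputable def emb (G : Type) [Group G] : MonoidAlgebra ℂ G →ₐ[ℂ] (tvn G).E :=
  pe (MonoidHom.id G)

theorem pe_single (q : G →* H) (g : G) (r : ℂ) :
    pe q (MonoidAlgebra.single g r) = r • lamT (q g) := by
  unfold pe
  rw [MonoidAlgebra.lift_single]
  rfl

theorem emb_single (g : G) (r : ℂ) :
    emb G (MonoidAlgebra.single g r) = r • lamT g := pe_single _ g r

@[elab_as_elim]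
theorem ind {motive : MonoidAlgebra ℂ G → Prop} (c : MonoidAlgebra ℂ G)
    (h1 : ∀ g r, motive (MonoidAlgebra.single g r))
    (h2 : ∀ a b, motive a → motive b → motive (a + b)) : motive c := by
  refine MonoidAlgebra.induction_linear c ?_ h2 h1
  have h := h1 1 0
  rwa [MonoidAlgebra.single_zero] at h

/-- (F2) -/
theorem star_pe (c : MonoidAlgebra ℂ G) :
    ∃ c' : MonoidAlgebra ℂ G, ∀ (K : Type) [Group K] (q : G →* K), star (pe q c) = pe q c' := by
  refine ind c ?_ ?_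
  · intro g r
    refine ⟨MonoidAlgebra.single g⁻¹ (star r), fun K _ q => ?_⟩
    rw [pe_single, pe_single, star_smul, star_lamT, map_inv]
  · rintro a b ⟨a', ha⟩ ⟨b', hb⟩
    refine ⟨a' + b', fun K _ q => ?_⟩
    rw [map_add, map_add, star_add, ha, hb]

/-- (F3) -/
theorem op_pe (c : MonoidAlgebra ℂ G) :
    ∃ C : ℝ, 0 ≤ C ∧ ∀ (K : Type) [Group K] (q : G →* K), (tvn K).opNorm (pe q c) ≤ C := by
  refine ind c ?_ ?_
  · intro g r
    refine ⟨‖r‖, norm_nonneg _, fun K _ q => ?_⟩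
    rw [pe_single, op_smul]
    have h := op_lamT (q g)
    have h2 := norm_nonneg r
    nlinarith
  · rintro a b ⟨A, hA, ha⟩ ⟨B, hB, hb⟩
    refine ⟨A + B, by positivity, fun K _ q => ?_⟩
    rw [map_add]
    exact (op_add _ _ _).trans (add_le_add (ha K q) (hb K q))

theorem exists_emb {y : (tvn G).E} (hy : y ∈ Submodule.span ℂ (Set.range (lamT (G := G)))) :
    ∃ c, emb G c = y := by
  have h : Submodule.span ℂ (Set.range (lamT (G := G))) ≤ LinearMap.range (emb G).toLinearMap := by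
    rw [Submodule.span_le]
    rintro _ ⟨g, rfl⟩
    refine ⟨MonoidAlgebra.single g 1, ?_⟩
    show emb G _ = _
    rw [emb_single, one_smul]
  exact h hy

variable {p : ℕ → G →* H}

/-- (F1) -/
theorem tau_pe (hp : ∀ g : G, g ≠ 1 → ∀ᶠ n in atTop, p n g ≠ 1) (c : MonoidAlgebra ℂ G) :
    ∀ᶠ n in atTop, (tvn H).τ (pe (p n) c) = (tvn G).τ (emb G c) := by
  classical
  refine ind c ?_ ?_
  · intro g r
    by_cases hg : g = 1
    · refine Eventually.of_forall fun n => ?_
      rw [pe_single, emb_single, map_smul, map_smul, tau_lamT, tau_lamT, hg, map_one, if_pos rfl,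
        if_pos rfl]
    · filter_upwards [hp g hg] with n hn
      rw [pe_single, emb_single, map_smul, map_smul, tau_lamT, tau_lamT, if_neg hg, if_neg hn]
  · intro a b ha hb
    filter_upwards [ha, hb] with n h1 h2
    rw [map_add, map_add, map_add, map_add, h1, h2]

/-- (F5) -/
theorem moment_pe (hp : ∀ g : G, g ≠ 1 → ∀ᶠ n in atTop, p n g ≠ 1) (c : MonoidAlgebra ℂ G)
    (m : ℕ) : ∀ᶠ n in atTop, (tvn H).τ ((star (pe (p n) c) * pe (p n) c) ^ m) =
      (tvn G).τ ((star (emb G c) * emb G c) ^ m) := by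
  obtain ⟨c', hc'⟩ := star_pe c
  filter_upwards [tau_pe hp ((c' * c) ^ m)] with n hn
  rw [map_pow (pe (p n)), map_mul (pe (p n)), map_pow (emb G), map_mul (emb G)] at hn
  rw [hc' H (p n), hn]
  unfold emb
  rw [hc' G (MonoidHom.id G)]

/-- (F4) -/
theorem norm2_pe (hp : ∀ g : G, g ≠ 1 → ∀ᶠ n in atTop, p n g ≠ 1) (c : MonoidAlgebra ℂ G) :
    ∀ᶠ n in atTop, (tvn H).norm2 (pe (p n) c) = (tvn G).norm2 (emb G c) := by
  filter_upwards [moment_pe hp c 1] with n hn
  rw [pow_one, pow_one] at hn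
  unfold TVN.norm2
  rw [hn]

/-! ## Approximation -/

/-- `s` is an approximation of `x` -/
def AP (p : ℕ → G →* H) (x : (tvn G).E) (s : ℕ → (tvn H).E) : Prop :=
  ∀ ε : ℝ, 0 < ε → ∃ c, (tvn G).norm2 (x - emb G c) < ε ∧
    ∀ᶠ n in atTop, (tvn H).norm2 (s n - pe (p n) c) < ε

theorem exists_AP (hK : S_KAP) (hC : S_CUT) (hp : ∀ g : G, g ≠ 1 → ∀ᶠ n in atTop, p n g ≠ 1)
    (x : (tvn G).E) :
    ∃ s : ℕ → (tvn H).E, (∀ n, (tvn H).opNorm (s n) ≤ (tvn G).opNorm x) ∧ AP p x s := by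
  have h1 : ∀ k : ℕ, ∃ (c : MonoidAlgebra ℂ G) (b : ℕ → (tvn H).E),
      (tvn G).norm2 (x - emb G c) < 1 / ((k : ℝ) + 1) ∧
      (∀ n, (tvn H).opNorm (b n) ≤ (tvn G).opNorm x) ∧
      Tendsto (fun n => (tvn H).norm2 (pe (p n) c - b n)) atTop (𝓝 0) := by
    intro k
    obtain ⟨y, hy, hy1, hy2⟩ := hK G x (1 / ((k : ℝ) + 1)) (by positivity)
    obtain ⟨c, rfl⟩ := exists_emb hy
    obtain ⟨C, -, hC2⟩ := op_pe c
    obtain ⟨b, hb1, hb2⟩ := hC (tvn G) (tvn H) (emb G c) (fun n => pe (p n) c) C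
      (fun n => hC2 H (p n)) (moment_pe hp c)
    exact ⟨c, b, hy2, fun n => (hb1 n).trans hy1, hb2⟩
  choose c b hc hb1 hb2 using h1
  obtain ⟨κ, hκ, hκ2⟩ := diag (fun k n => (tvn H).norm2 (pe (p n) (c k) - b k n) < 1 / ((k : ℝ) + 1) ∧
      ∀ j ≤ k, (tvn H).norm2 (pe (p n) (c k - c j)) = (tvn G).norm2 (emb G (c k - c j))) (by
    intro k
    refine Eventually.and ?_ ?_
    · exact (hb2 k).eventually (gt_mem_nhds (by positivity))
    · have h2 : ∀ j ∈ Finset.range (k + 1), ∀ᶠ n in atTop,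
        (tvn H).norm2 (pe (p n) (c k - c j)) = (tvn G).norm2 (emb G (c k - c j)) :=
        fun j _ => norm2_pe hp _
      rw [← Filter.eventually_all_finset] at h2
      filter_upwards [h2] with n hn j hj
      exact hn j (Finset.mem_range.2 (Nat.lt_succ_of_le hj)))
  refine ⟨fun n => b (κ n) n, fun n => hb1 _ n, fun ε hε => ?_⟩
  obtain ⟨j, hj⟩ := exists_nat_gt (3 / ε)
  have hj0 : (0 : ℝ) < (j : ℝ) + 1 := by positivity
  have hj1 : 3 / ((j : ℝ) + 1) < ε := by
    rw [div_lt_iff₀ hj0]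
    rw [div_lt_iff₀ hε] at hj
    nlinarith
  refine ⟨c j, ?_, ?_⟩
  · refine (hc j).trans (lt_of_le_of_lt ?_ hj1)
    gcongr
    norm_num
  · filter_upwards [hκ2, hκ.eventually (eventually_ge_atTop j)] with n h2 h3
    have h4 : 1 / ((κ n : ℝ) + 1) ≤ 1 / ((j : ℝ) + 1) := by
      have : (j : ℝ) ≤ κ n := by exact_mod_cast h3
      gcongr
    have h5 := h2.2 j h3
    rw [map_sub, map_sub] at h5
    have h6 := norm2_tri (tvn H) (b (κ n) n) (pe (p n) (c (κ n))) (pe (p n) (c j))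
    rw [norm2_sub_comm (tvn H) (b (κ n) n) (pe (p n) (c (κ n)))] at h6
    have h7 := norm2_tri (tvn G) (emb G (c (κ n))) x (emb G (c j))
    rw [norm2_sub_comm (tvn G) (emb G (c (κ n))) x] at h7
    have h8 := hc (κ n)
    have h9 := hc j
    have h10 := h2.1
    have h11 : 3 / ((j : ℝ) + 1) = 1 / ((j : ℝ) + 1) + 1 / ((j : ℝ) + 1) + 1 / ((j : ℝ) + 1) := by
      ring
    show (tvn H).norm2 (b (κ n) n - pe (p n) (c j)) < ε
    linarith

theorem AP.unique (hp : ∀ g : G, g ≠ 1 → ∀ᶠ n in atTop, p n g ≠ 1) {x : (tvn G).E}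
    {s t : ℕ → (tvn H).E} (hs : AP p x s) (ht : AP p x t) :
    Tendsto (fun n => (tvn H).norm2 (s n - t n)) atTop (𝓝 0) := by
  refine tendsto_of_le (tvn H) (f := fun n => s n - t n) fun ε hε => ?_
  obtain ⟨c, hc1, hc2⟩ := hs (ε / 4) (by positivity)
  obtain ⟨d, hd1, hd2⟩ := ht (ε / 4) (by positivity)
  filter_upwards [hc2, hd2, norm2_pe hp (c - d)] with n h1 h2 h3
  rw [map_sub, map_sub] at h3
  have h4 := norm2_tri (tvn H) (s n) (pe (p n) c) (t n)
  have h5 := norm2_tri (tvn H) (pe (p n) c) (pe (p n) d) (t n)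
  rw [norm2_sub_comm (tvn H) (pe (p n) d) (t n)] at h5
  have h6 := norm2_tri (tvn G) (emb G c) x (emb G d)
  rw [norm2_sub_comm (tvn G) (emb G c) x] at h6
  linarith

theorem AP.add {x y : (tvn G).E} {s t : ℕ → (tvn H).E} (hs : AP p x s) (ht : AP p y t) :
    AP p (x + y) (fun n => s n + t n) := by
  intro ε hε
  obtain ⟨c, hc1, hc2⟩ := hs (ε / 2) (by positivity)
  obtain ⟨d, hd1, hd2⟩ := ht (ε / 2) (by positivity)
  refine ⟨c + d, ?_, ?_⟩
  · rw [map_add, add_sub_add_comm]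
    have := norm2_add (tvn G) (x - emb G c) (y - emb G d)
    linarith
  · filter_upwards [hc2, hd2] with n h1 h2
    rw [map_add, add_sub_add_comm]
    have := norm2_add (tvn H) (s n - pe (p n) c) (t n - pe (p n) d)
    linarith

theorem AP.smul (r : ℂ) {x : (tvn G).E} {s : ℕ → (tvn H).E} (hs : AP p x s) :
    AP p (r • x) (fun n => r • s n) := by
  intro ε hε
  obtain ⟨c, hc1, hc2⟩ := hs (ε / (‖r‖ + 1)) (by positivity)
  have h0 : 0 < ‖r‖ + 1 := by positivity
  have key : ∀ a : ℝ, 0 ≤ a → a < ε / (‖r‖ + 1) → ‖r‖ * a < ε := by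
    intro a ha h
    rw [lt_div_iff₀ h0] at h
    nlinarith
  refine ⟨r • c, ?_, ?_⟩
  · rw [map_smul, ← smul_sub, norm2_smul]
    exact key _ (norm2_nonneg _ _) hc1
  · filter_upwards [hc2] with n h1
    rw [map_smul, ← smul_sub, norm2_smul]
    exact key _ (norm2_nonneg _ _) h1

theorem AP.star {x : (tvn G).E} {s : ℕ → (tvn H).E} (hs : AP p x s) :
    AP p (star x) (fun n => star (s n)) := by
  intro ε hε
  obtain ⟨c, hc1, hc2⟩ := hs ε hε
  obtain ⟨c', hc'⟩ := star_pe c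
  refine ⟨c', ?_, ?_⟩
  · have h := hc' G (MonoidHom.id G)
    show (tvn G).norm2 (Star.star x - pe (MonoidHom.id G) c') < ε
    rw [← h, ← star_sub, norm2_star]
    exact hc1
  · filter_upwards [hc2] with n h1
    rw [← hc' H (p n), ← star_sub, norm2_star]
    exact h1

theorem AP.mul {x y : (tvn G).E} {s t : ℕ → (tvn H).E} {B : ℝ}
    (hB : ∀ n, (tvn H).opNorm (t n) ≤ B) (hs : AP p x s) (ht : AP p y t) :
    AP p (x * y) (fun n => s n * t n) := by
  intro ε hε
  have hB0 : 0 ≤ B := (op_nonneg _ _).trans (hB 0)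
  have hy0 := op_nonneg (tvn G) y
  set A : ℝ := B + (tvn G).opNorm y + 1 with hA
  have hA0 : 0 < A := by positivity
  obtain ⟨c, hc1, hc2⟩ := hs (ε / (2 * A)) (by positivity)
  obtain ⟨C, hC0, hC⟩ := op_pe c
  have hC1 : 0 < C + 1 := by positivity
  obtain ⟨d, hd1, hd2⟩ := ht (ε / (2 * (C + 1))) (by positivity)
  have key : ∀ a b u v : ℝ, 0 ≤ a → 0 ≤ b → 0 ≤ u → 0 ≤ v → a < ε / (2 * A) →
      b < ε / (2 * (C + 1)) → u ≤ A → v ≤ C → a * u + v * b < ε := by
    intro a b u v ha hb hu hv h1 h2 h3 h4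
    rw [lt_div_iff₀ (by positivity)] at h1 h2
    nlinarith [mul_le_mul_of_nonneg_left h3 ha, mul_le_mul_of_nonneg_right h4 hb]
  refine ⟨c * d, ?_, ?_⟩
  · have e : x * y - emb G (c * d) = (x - emb G c) * y + emb G c * (y - emb G d) := by
      rw [map_mul]
      noncomm_ring
    rw [e]
    refine (norm2_add _ _ _).trans_lt ?_
    refine lt_of_le_of_lt (add_le_add (norm2_mul_right _ _ _) (norm2_mul_left _ _ _)) ?_
    refine key _ _ _ _ (norm2_nonneg _ _) (norm2_nonneg _ _) (op_nonneg _ _) (op_nonneg _ _)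
      hc1 hd1 ?_ (hC G _)
    linarith
  · filter_upwards [hc2, hd2] with n h1 h2
    have e : s n * t n - pe (p n) (c * d) =
        (s n - pe (p n) c) * t n + pe (p n) c * (t n - pe (p n) d) := by
      rw [map_mul]
      noncomm_ring
    rw [e]
    refine (norm2_add _ _ _).trans_lt ?_
    refine lt_of_le_of_lt (add_le_add (norm2_mul_right _ _ _) (norm2_mul_left _ _ _)) ?_
    refine key _ _ _ _ (norm2_nonneg _ _) (norm2_nonneg _ _) (op_nonneg _ _) (op_nonneg _ _)
      h1 h2 ?_ (hC H _)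
    have := hB n
    linarith

theorem AP.one : AP p (1 : (tvn G).E) (fun _ => (1 : (tvn H).E)) := by
  intro ε hε
  refine ⟨1, ?_, Eventually.of_forall fun n => ?_⟩
  · rw [map_one, norm2_self]
    exact hε
  · rw [map_one, norm2_self]
    exact hε

theorem AP.trace (hp : ∀ g : G, g ≠ 1 → ∀ᶠ n in atTop, p n g ≠ 1) {x : (tvn G).E}
    {s : ℕ → (tvn H).E} (hs : AP p x s) :
    Tendsto (fun n => (tvn H).τ (s n)) atTop (𝓝 ((tvn G).τ x)) := by
  rw [Metric.tendsto_nhds]
  intro ε hε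
  obtain ⟨c, hc1, hc2⟩ := hs (ε / 2) (by positivity)
  filter_upwards [hc2, tau_pe hp c] with n h1 h2
  have h3 := tau_le (tvn H) (s n - pe (p n) c)
  have h4 := tau_le (tvn G) (x - emb G c)
  rw [map_sub] at h3 h4
  rw [dist_eq_norm]
  have e : (tvn H).τ (s n) - (tvn G).τ x = ((tvn H).τ (s n) - (tvn H).τ (pe (p n) c)) -
      ((tvn G).τ x - (tvn G).τ (emb G c)) := by
    rw [h2]
    ring
  rw [e]
  have h5 := norm_sub_le ((tvn H).τ (s n) - (tvn H).τ (pe (p n) c))
    ((tvn G).τ x - (tvn G).τ (emb G c))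
  linarith

end

section

variable {G : Type} [Group G] {H : Subgroup G} {p : ℕ → G →* H}

theorem exists_of_span (hp : ∀ h : H, ∀ᶠ n in atTop, p n (h : G) = h) {y : (tvn H).E}
    (hy : y ∈ Submodule.span ℂ (Set.range (lamT (G := H)))) :
    ∃ c, emb G c = iotaT H y ∧ ∀ᶠ n in atTop, pe (p n) c = y := by
  obtain ⟨d, rfl⟩ := exists_emb hy
  refine ind d ?_ ?_
  · intro h r
    refine ⟨MonoidAlgebra.single (h : G) r, ?_, ?_⟩
    · rw [emb_single, emb_single, map_smul, iotaT_lamT]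
    · filter_upwards [hp h] with n hn
      rw [pe_single, emb_single, hn]
  · rintro a b ⟨c1, h1, h2⟩ ⟨c2, h3, h4⟩
    refine ⟨c1 + c2, ?_, ?_⟩
    · rw [map_add, map_add, map_add, h1, h3]
    · filter_upwards [h2, h4] with n h5 h6
      rw [map_add, map_add, h5, h6]

theorem AP.diagonal (hK : S_KAP) (hp : ∀ h : H, ∀ᶠ n in atTop, p n (h : G) = h) (x : (tvn H).E) :
    AP p (iotaT H x) (fun _ => x) := by
  intro ε hε
  obtain ⟨y, hy, -, hy2⟩ := hK H x ε hε
  obtain ⟨c, hc1, hc2⟩ := exists_of_span hp hy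
  refine ⟨c, ?_, ?_⟩
  · rw [hc1, ← map_sub, norm2_iotaT]
    exact hy2
  · filter_upwards [hc2] with n hn
    rw [hn]
    exact hy2

end

end Ext

open Ext in
theorem t_EXT (hK : S_KAP) (hC : S_CUT) : S_EXT := by
  intro G _ H p hp1 hp2
  choose θ hθ1 hθ2 using exists_AP (G := G) (H := H) (p := p) hK hC hp2
  refine ⟨θ, ⟨hθ1, ?_, ?_, ?_, ?_, ?_, ?_⟩, ?_⟩
  · exact AP.unique hp2 (hθ2 1) AP.one
  · intro x y
    exact AP.unique hp2 (hθ2 (x + y)) ((hθ2 x).add (hθ2 y))
  · intro c x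
    exact AP.unique hp2 (hθ2 (c • x)) ((hθ2 x).smul c)
  · intro x y
    exact AP.unique hp2 (hθ2 (x * y)) ((hθ2 x).mul (hθ1 y) (hθ2 y))
  · intro x
    exact AP.unique hp2 (hθ2 (star x)) (hθ2 x).star
  · intro x
    exact AP.trace hp2 (hθ2 x)
  · intro x
    exact AP.unique hp2 (hθ2 (iotaT H x)) (AP.diagonal hK hp1 x)

end Pool.Agent.K6.H14.EX
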