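import Pool.Agent.K6.H14.EX.Stm

/-!
# FAC: `L(G)` is a II_1 factor if `G` is an infinite ICC group
-/

set_option autoImplicit false

namespace Pool.Agent.K6.H14.EX.F49

open Pool.Agent.H667R2.FG (Ell Op permOp lam rho delta LG EltG tau)
open Pool.Agent.H667R2.FG.TL2 (delta_apply norm_delta inner_delta lam_delta rho_delta lam_mul
  lam_one star_lam star_rho lam_rho mem_LG mem_comm lam_mem comm_rho coef_apply star_coef
  star_comm_rho permOp_apply)
open Pool.Agent.R283.GV (hasSum_sq elt_ext ext_delta)
open scoped ComplexConjugate InnerProductSpace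

section Core

variable {G : Type} [Group G]

omit [Group G] in
theorem zero_of_const {ξ : Ell G} {c : ℂ} {S : Set G} (hS : S.Infinite) (h : ∀ g ∈ S, ξ g = c) :
    c = 0 := by
  by_contra hc
  have h1 := (hasSum_sq ξ).summable.tendsto_cofinite_zero
  have h2 : ∀ᶠ g in Filter.cofinite, ‖ξ g‖ ^ 2 < ‖c‖ ^ 2 := by
    have h3 : (0 : ℝ) < ‖c‖ ^ 2 := by positivity
    exact h1.eventually (gt_mem_nhds h3)
  rw [Filter.eventually_cofinite] at h2
  refine hS (h2.subset fun g hg => ?_)
  show ¬ _
  rw [not_lt]
  rw [h g hg]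

theorem coef_conj {z : Op G} (hz : z ∈ LG G) (hc : ∀ g, lam g * z = z * lam g) (k m : G) :
    (z (delta 1)) (k * m * k⁻¹) = (z (delta 1)) m := by
  have h1 := congrArg (fun t : Op G => (t (delta 1)) (k * m)) (hc k)
  have h2 : (lam k (z (delta 1))) (k * m) = (z (lam k (delta 1))) (k * m) := h1
  rw [lam_delta, mul_one, coef_apply z (comm_rho z hz)] at h2
  have h3 : (lam k (z (delta 1))) (k * m) = (z (delta 1)) (k⁻¹ * (k * m)) := rfl
  rw [h3, inv_mul_cancel_left] at h2
  exact h2.symm

theorem central_scalar (hicc : ∀ g : G, g ≠ 1 → {y | ∃ k : G, y = k * g * k⁻¹}.Infinite)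
    (z : EltG G) (hc : ∀ g, lam g * (z : Op G) = (z : Op G) * lam g) :
    ∃ c : ℂ, z = c • (1 : EltG G) := by
  classical
  refine ⟨((z : Op G) (delta 1)) 1, elt_ext ?_⟩
  ext m
  have e1 : (((((z : Op G) (delta 1)) 1) • (1 : EltG G) : EltG G) : Op G) (delta 1) =
      (((z : Op G) (delta 1)) 1) • (delta 1 : Ell G) := rfl
  rw [e1]
  have e2 : ((((z : Op G) (delta 1)) 1) • (delta 1 : Ell G)) m =
      (((z : Op G) (delta 1)) 1) * (delta 1 : Ell G) m := rfl
  rw [e2, delta_apply]
  by_cases hm : m = 1
  · rw [if_pos hm, mul_one, hm]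
  · rw [if_neg hm, mul_zero]
    refine zero_of_const (ξ := (z : Op G) (delta 1)) (hicc m hm) ?_
    rintro y ⟨k, rfl⟩
    exact coef_conj z.2 hc k m

/-- the left translations as elements of `L(G)` -/
noncomputable def lamE (g : G) : EltG G := ⟨lam g, lam_mem g⟩

theorem not_fd [Infinite G] : ¬ FiniteDimensional ℂ (EltG G) := by
  classical
  intro hfd
  let ev : EltG G →ₗ[ℂ] Ell G :=
    { toFun := fun x => (x : Op G) (delta 1)
      map_add' := fun x y => rfl
      map_smul' := fun c x => rfl }
  have horth : Orthonormal ℂ (fun g : G => (delta g : Ell G)) := by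
    refine ⟨fun g => norm_delta g, fun g h hgh => ?_⟩
    show ⟪(delta g : Ell G), delta h⟫_ℂ = 0
    rw [inner_delta, delta_apply, if_neg hgh]
  have hli : LinearIndependent ℂ (fun g : G => (lamE g : EltG G)) := by
    refine LinearIndependent.of_comp ev ?_
    have : (ev ∘ fun g : G => lamE g) = fun g : G => (delta g : Ell G) := by
      funext g
      show lam g (delta 1) = delta g
      rw [lam_delta, mul_one]
    rw [this]
    exact horth.linearIndependent
  have := hli.finite
  exact not_finite G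

end Core

end Pool.Agent.K6.H14.EX.F49

namespace Pool.Agent.K6.H14.EX

open F49

theorem t_FAC : S_FAC := by
  intro G _ _ hicc
  refine ⟨fun z hz => ?_, fun hfd => not_fd (G := G) hfd⟩
  refine central_scalar (G := G) (fun g hg => hicc g hg) z (fun g => ?_)
  have h := hz (lamT g)
  exact (congrArg (fun t : (tvn G).E => toOp t) h).symm

end Pool.Agent.K6.H14.EX
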