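import Pool.Agent.K6.H14.EX.StmG
import Pool.Agent.K6.H36.EX.Core

/-!
# G1: truncations of elements of the group
-/

set_option autoImplicit false

namespace Pool.Agent.K6.H14.EX

open Pool.Agent.Helper278.TB (G B)

theorem t_G1 : S_G1 := by
  intro K _ _ n g hg
  obtain ⟨h, hh, hh'⟩ := Pool.Agent.K6.H36.EX.trunc_mem g hg n
  refine ⟨h, hh, fun w => ?_, fun w hw => ?_⟩
  · have h1 := hh' (w.take n)
    rw [List.take_take, min_self, List.drop_of_length_le (by rw [List.length_take]; omega),
      List.append_nil] at h1
    rw [hh', h1]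
  · rw [hh', List.take_of_length_le hw, List.drop_of_length_le hw, List.append_nil]

end Pool.Agent.K6.H14.EX
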