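import Pool.Agent.Helper278.TB.Final

/-!
# Statements of the pieces on the group (MP_02fda4_an)
-/

set_option autoImplicit false

namespace Pool.Agent.K6.H14.EX

/-! The group is `Pool.Agent.Helper278.TB.G K`, a group of automorphisms of the tree of the words
`List (B K)`, with property (T) if `K` is a finite field with at least 256 elements
(`Pool.Agent.Helper278.TB.propT_G hK ln_add pair_all`). -/

section grp

open Pool.Agent.Helper278.TB (G B)

/-- `g` acts only on the first `n` letters of the words -/
def Dep {X : Type} (n : ℕ) (g : Equiv.Perm (List X)) : Prop :=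
  ∀ w : List X, g w = g (w.take n) ++ w.drop n

/-- G1: truncations of elements of `G K` are in `G K`. -/
def S_G1 : Prop := ∀ (K : Type) [Field K] [Fintype K] (n : ℕ) (g : Equiv.Perm (List (B K))),
  g ∈ G K → ∃ g' ∈ G K, Dep n g' ∧ ∀ w, w.length ≤ n → g' w = g w

/-- G3: every nontrivial element of `G K` has infinitely many conjugates under elements of `G K` of
finite depth. -/
def S_G3 : Prop := ∀ (K : Type) [Field K] [Fintype K] (g : Equiv.Perm (List (B K))),
  g ∈ G K → g ≠ 1 → {y | ∃ k ∈ G K, (∃ n, Dep n k) ∧ y = k * g * k⁻¹}.Infinite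

end grp

end Pool.Agent.K6.H14.EX
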