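import Pool.Agent.K6.H14.EX.Stm
import Pool.Agent.K6.H14.EX.StmG
import Pool.Agent.K6.H36.EX.Core

/-!
# G2: the groups
-/

set_option autoImplicit false

namespace Pool.Agent.K6.H14.EX.G49

open Pool.Agent.Helper278.TB
open Filter

section dep

variable {K : Type} [Field K]

theorem G_iter (g : Equiv.Perm (List (B K))) (hg : g ∈ G K) (k : ℕ) (w : List (B K)) :
    List.dropLast^[k] (g w) = g (List.dropLast^[k] w) := by
  induction k with
  | zero => rfl
  | succ k ih => rw [Function.iterate_succ_apply', Function.iterate_succ_apply', ih, G_dropLast g hg]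

theorem G_take (g : Equiv.Perm (List (B K))) (hg : g ∈ G K) (w : List (B K)) (n : ℕ) :
    (g w).take n = g (w.take n) := by
  rcases le_total w.length n with h | h
  · rw [List.take_of_length_le h, List.take_of_length_le (by rw [G_length g hg]; exact h)]
  · have h1 := G_iter g hg (w.length - n) w
    rw [iter_dropLast, iter_dropLast, G_length g hg] at h1
    have h2 : w.length - (w.length - n) = n := by omega
    rw [h2] at h1
    exact h1

omit [Field K] in
theorem dep_one (n : ℕ) : Dep n (1 : Equiv.Perm (List (B K))) := by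
  intro w
  show w = w.take n ++ w.drop n
  rw [List.take_append_drop]

theorem dep_mul {n : ℕ} {a b : Equiv.Perm (List (B K))} (hb : b ∈ G K) (da : Dep n a)
    (db : Dep n b) : Dep n (a * b) := by
  intro w
  have h1 := Pool.Agent.K6.H36.EX.take_app n w (b (w.take n)) (G_length b hb _)
  rw [Equiv.Perm.mul_apply, Equiv.Perm.mul_apply, db w, da, h1.1, h1.2]

theorem dep_inv {n : ℕ} {a : Equiv.Perm (List (B K))} (ha : a ∈ G K) (da : Dep n a) :
    Dep n a⁻¹ := by
  intro w
  have h1 := Pool.Agent.K6.H36.EX.take_app n w (a⁻¹ (w.take n))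
    (G_length a⁻¹ ((G K).inv_mem ha) _)
  rw [Equiv.Perm.inv_eq_iff_eq, da, h1.1, h1.2]
  simp

omit [Field K] in
theorem dep_mono {m n : ℕ} (h : m ≤ n) {g : Equiv.Perm (List (B K))} (dg : Dep m g) :
    Dep n g := by
  intro w
  rw [dg w, dg (w.take n), List.take_take, min_eq_left h, List.append_assoc]
  congr 1
  rcases le_total n w.length with hn | hn
  · conv_lhs => rw [← List.take_append_drop n w]
    rw [List.drop_append_of_le_length (by rw [List.length_take]; omega)]
  · rw [List.take_of_length_le hn, List.drop_of_length_le hn, List.append_nil]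

omit [Field K] in
theorem dep_uniq {n : ℕ} {a b : Equiv.Perm (List (B K))} (da : Dep n a) (db : Dep n b)
    (h : ∀ w : List (B K), w.length ≤ n → a w = b w) : a = b := by
  apply Equiv.ext
  intro w
  rw [da w, db w, h _ (by rw [List.length_take]; omega)]

variable (K) in
/-- the elements of depth `n` -/
def DS (n : ℕ) : Subgroup (G K) where
  carrier := {g | Dep n (g : Equiv.Perm (List (B K)))}
  one_mem' := dep_one n
  mul_mem' := fun {a b} ha hb => dep_mul b.2 ha hb
  inv_mem' := fun {a} ha => dep_inv a.2 ha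

variable (K) in
/-- the elements of finite depth -/
def HS : Subgroup (G K) where
  carrier := {g | ∃ n, Dep n (g : Equiv.Perm (List (B K)))}
  one_mem' := ⟨0, dep_one 0⟩
  mul_mem' := fun {a b} ha hb => by
    obtain ⟨m, hm⟩ := ha
    obtain ⟨n, hn⟩ := hb
    exact ⟨max m n, dep_mul b.2 (dep_mono (le_max_left _ _) hm) (dep_mono (le_max_right _ _) hn)⟩
  inv_mem' := fun {x} hx => by
    obtain ⟨m, hm⟩ := hx
    exact ⟨m, dep_inv x.2 hm⟩

variable (K) in
/-- the elements of depth `n`, as a subgroup of `HS K` -/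
def FS (n : ℕ) : Subgroup (HS K) := (DS K n).subgroupOf (HS K)

theorem mem_FS {n : ℕ} {h : HS K} :
    h ∈ FS K n ↔ Dep n ((h : G K) : Equiv.Perm (List (B K))) := Iff.rfl

theorem FS_mono : Monotone (FS K) := fun _ _ hmn _ hx => dep_mono hmn hx

theorem FS_finite [Finite K] (n : ℕ) : Finite (FS K n) := by
  have hf : Finite {w : List (B K) // w.length ≤ n} :=
    (List.finite_length_le (B K) n).to_subtype
  let f : FS K n → ({w : List (B K) // w.length ≤ n} → {w : List (B K) // w.length ≤ n}) :=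
    fun g w => ⟨(((g : HS K) : G K) : Equiv.Perm (List (B K))) w.1, by
      rw [G_length _ ((g : HS K) : G K).2]
      exact w.2⟩
  refine Finite.of_injective f fun a b hab => ?_
  apply Subtype.ext
  apply Subtype.ext
  apply Subtype.ext
  refine dep_uniq a.2 b.2 fun w hw => ?_
  exact congrArg Subtype.val (congrFun hab ⟨w, hw⟩)

theorem FS_exhaust (h : HS K) : ∃ n, h ∈ FS K n := h.2

theorem G_countable [Fintype K] : Countable (G K) := by
  have h1 : G K = (FreeGroup.lift (fun q : Fin 14 × K => ln q.1 q.2)).range := by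
    rw [FreeGroup.range_lift_eq_closure]
    unfold G
    congr 1
    ext g
    constructor
    · rintro ⟨n, t, rfl⟩
      exact ⟨(n, t), rfl⟩
    · rintro ⟨⟨n, t⟩, rfl⟩
      exact ⟨n, t, rfl⟩
  have h2 : Countable (FreeGroup (Fin 14 × K)) := by
    unfold FreeGroup
    exact Quot.mk_surjective.countable
  rw [h1]
  exact (MonoidHom.rangeRestrict_surjective _).countable

end dep

section trunc

variable {K : Type} [Field K] [Fintype K]

/-- the truncation at depth `n` -/
noncomputable def tr (h1 : S_G1) (n : ℕ) (g : G K) : HS K :=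
  ⟨⟨(h1 K n g g.2).choose, (h1 K n g g.2).choose_spec.1⟩, ⟨n, (h1 K n g g.2).choose_spec.2.1⟩⟩

theorem tr_dep (h1 : S_G1) (n : ℕ) (g : G K) :
    Dep n ((tr h1 n g : G K) : Equiv.Perm (List (B K))) := (h1 K n g g.2).choose_spec.2.1

theorem tr_apply (h1 : S_G1) (n : ℕ) (g : G K) (w : List (B K)) (hw : w.length ≤ n) :
    ((tr h1 n g : G K) : Equiv.Perm (List (B K))) w = (g : Equiv.Perm (List (B K))) w :=
  (h1 K n g g.2).choose_spec.2.2 w hw

theorem tr_uniq (h1 : S_G1) (n : ℕ) (g : G K) (h : HS K)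
    (hd : Dep n ((h : G K) : Equiv.Perm (List (B K))))
    (hw : ∀ w : List (B K), w.length ≤ n →
      ((h : G K) : Equiv.Perm (List (B K))) w = (g : Equiv.Perm (List (B K))) w) :
    tr h1 n g = h := by
  apply Subtype.ext
  apply Subtype.ext
  exact dep_uniq (tr_dep h1 n g) hd fun w hw' => by rw [tr_apply h1 n g w hw', hw w hw']

/-- the truncation at depth `n` as a homomorphism -/
noncomputable def trH (h1 : S_G1) (n : ℕ) : G K →* HS K where
  toFun := tr h1 n
  map_one' := tr_uniq h1 n 1 1 (dep_one n) fun _ _ => rfl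
  map_mul' := fun a b => by
    refine tr_uniq h1 n (a * b) (tr h1 n a * tr h1 n b)
      (dep_mul (tr h1 n b : G K).2 (tr_dep h1 n a) (tr_dep h1 n b)) fun w hw => ?_
    show ((tr h1 n a : G K) : Equiv.Perm (List (B K)))
      (((tr h1 n b : G K) : Equiv.Perm (List (B K))) w) =
      (a : Equiv.Perm (List (B K))) ((b : Equiv.Perm (List (B K))) w)
    rw [tr_apply h1 n b w hw, tr_apply h1 n a _ (by rw [G_length _ b.2]; exact hw)]

end trunc

section main

variable (K : Type) [Field K] [Fintype K]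

theorem icc_G (h3 : S_G3) : IsIcc (G K) := by
  intro x hx
  have hx' : (x : Equiv.Perm (List (B K))) ≠ 1 := fun h => hx (Subtype.ext h)
  refine Set.Infinite.of_image (Subtype.val) ((h3 K x x.2 hx').mono ?_)
  rintro y ⟨k, hk, _, rfl⟩
  exact ⟨⟨k, hk⟩ * x * ⟨k, hk⟩⁻¹, ⟨⟨k, hk⟩, rfl⟩, rfl⟩

theorem icc_H (h3 : S_G3) : IsIcc (HS K) := by
  intro x hx
  have hx' : (((x : G K)) : Equiv.Perm (List (B K))) ≠ 1 :=
    fun h => hx (Subtype.ext (Subtype.ext h))
  refine Set.Infinite.of_image (fun h : HS K => (((h : G K)) : Equiv.Perm (List (B K))))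
    ((h3 K _ (x : G K).2 hx').mono ?_)
  rintro y ⟨k, hk, ⟨n, hn⟩, rfl⟩
  exact ⟨⟨⟨k, hk⟩, ⟨n, hn⟩⟩ * x * ⟨⟨k, hk⟩, ⟨n, hn⟩⟩⁻¹, ⟨⟨⟨k, hk⟩, ⟨n, hn⟩⟩, rfl⟩, rfl⟩

theorem tr_eventually (h1 : S_G1) (h : HS K) : ∀ᶠ n in atTop, trH h1 n (h : G K) = h := by
  obtain ⟨m, hm⟩ := h.2
  filter_upwards [eventually_ge_atTop m] with n hn
  exact tr_uniq h1 n _ h (dep_mono hn hm) fun _ _ => rfl

theorem tr_separates (h1 : S_G1) (g : G K) (hg : g ≠ 1) : ∀ᶠ n in atTop, trH h1 n g ≠ 1 := by
  have hw : ∃ w, (g : Equiv.Perm (List (B K))) w ≠ w := by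
    by_contra hcon
    push Not at hcon
    exact hg (Subtype.ext (Equiv.ext hcon))
  obtain ⟨w, hw⟩ := hw
  filter_upwards [eventually_ge_atTop w.length] with n hn h
  apply hw
  rw [← tr_apply h1 n g w hn]
  have h2 := congrArg (fun t : HS K => ((t : G K) : Equiv.Perm (List (B K))) w) h
  exact h2

theorem exists_ne_one : ∃ g : G K, g ≠ 1 := by
  obtain ⟨g, hg, h⟩ := level_trans (K := K) [fun _ => 0] [fun _ => 1] rfl
  refine ⟨⟨g, hg⟩, fun hc => ?_⟩
  have h2 : g = 1 := congrArg Subtype.val hc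
  rw [h2] at h
  have h3 := congrFun (List.singleton_inj.mp h) 0
  exact zero_ne_one h3

theorem H_infinite (h1 : S_G1) (h3 : S_G3) : Infinite (HS K) := by
  obtain ⟨g, hg⟩ := exists_ne_one K
  obtain ⟨n, hn⟩ := (tr_separates K h1 g hg).exists
  exact Set.infinite_univ_iff.1 ((icc_H K h3 _ hn).mono (Set.subset_univ _))

theorem grp (h1 : S_G1) (h3 : S_G3) (hK : 256 ≤ Fintype.card K) : S_GRP :=
  ⟨G K, inferInstance, HS K, FS K, trH h1, G_countable, H_infinite K h1 h3, icc_G K h3,
    icc_H K h3, propT_G hK ln_add pair_all, FS_mono, FS_finite, FS_exhaust, tr_eventually K h1,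
    tr_separates K h1⟩

end main

end Pool.Agent.K6.H14.EX.G49

namespace Pool.Agent.K6.H14.EX

theorem t_G2 (h1 : S_G1) (h3 : S_G3) : S_GRP := by
  have : Fact (Nat.Prime 257) := ⟨by norm_num⟩
  exact G49.grp (ZMod 257) h1 h3 (by rw [ZMod.card]; norm_num)

end Pool.Agent.K6.H14.EX
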