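import Pool.Agent.K6.H14.EX.StmG
import Pool.Agent.K6.H36.EX.Core

/-!
# G3: infinitely many conjugates under elements of finite depth
-/

set_option autoImplicit false

namespace Pool.Agent.K6.H14.EX

open Pool.Agent.Helper278.TB (G B)

theorem t_G3 : S_G3 := by
  intro K _ _ g hg hne
  have hv : ∃ v, g v ≠ v := by
    by_contra hcon
    push Not at hcon
    exact hne (Equiv.ext hcon)
  obtain ⟨v, hv⟩ := hv
  refine Set.infinite_of_injective_forall_mem
    (f := fun m : ℕ => Pool.Agent.K6.H36.EX.kk v m * g * (Pool.Agent.K6.H36.EX.kk v m)⁻¹) ?_ ?_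
  · intro l m hlm
    by_contra hcon
    rcases Nat.lt_or_gt_of_ne hcon with h | h
    · exact Pool.Agent.K6.H36.EX.conj_ne g hg v hv l m h hlm
    · exact Pool.Agent.K6.H36.EX.conj_ne g hg v hv m l h hlm.symm
  · intro m
    exact ⟨_, Pool.Agent.K6.H36.EX.kk_mem v m,
      ⟨_, fun w => Pool.Agent.K6.H36.EX.kk_depth v m w⟩, rfl⟩

end Pool.Agent.K6.H14.EX
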