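import Pool.Agent.K6.H14.EX.Base

/-!
# The von Neumann algebra of a locally finite group has the Haagerup property

The completely positive maps are the conditional expectations on the algebras `L(F n)` of the
finite subgroups `F n`.
-/

set_option autoImplicit false

namespace Pool.Agent.K6.H14.EX

open Pool.Agent.H504R3 (TVN)
open Pool.Agent.R283.GV
open Pool.Agent.H667R2.FG (Ell Op permOp lam rho delta LG EltG tau)
open Pool.Agent.H667R2.FG.TL2 (delta_apply norm_delta inner_delta)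
open Filter Topology
open scoped ComplexConjugate InnerProductSpace

namespace HAAs

variable {G : Type} [Group G] {K : Subgroup G}

theorem hasSum_coset (m : EltG K) (ξ ζ : Ell G) :
    HasSum (fun q : G ⧸ K => ⟪restr K (q.out)⁻¹ ξ, (m : Op K) (restr K (q.out)⁻¹ ζ)⟫_ℂ)
      ⟪ξ, ((iota K m : EltG G) : Op G) ζ⟫_ℂ := by
  have h1 := lp.hasSum_inner (𝕜 := ℂ) ξ (((iota K m : EltG G) : Op G) ζ)
  rw [← (eqv K).hasSum_iff] at h1
  refine h1.prod_fiberwise fun q => ?_
  have h2 := lp.hasSum_inner (𝕜 := ℂ) (restr K (q.out)⁻¹ ξ) ((m : Op K) (restr K (q.out)⁻¹ ζ))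
  refine h2.congr_fun ?_ |> id
  intro h
  show ⟪ξ (eqv K (q, h)), (((iota K m : EltG G) : Op G) ζ) (eqv K (q, h))⟫_ℂ = _
  rw [iota_apply, coord_formula (m : Op K) (elt_comm m) ζ q h, restr_apply, eqv_apply]

theorem cp_core {n : ℕ} (x : Fin n → EltG G) (ξ : Fin n → Ell G) :
    HasSum (fun q : G ⧸ K => ((‖∑ j, (x j : Op G) (ext0 K (restr K (q.out)⁻¹ (ξ j)))‖ ^ 2 : ℝ) : ℂ))
      (∑ i, ∑ j, ⟪ξ i, ((iota K (cmp K (star (x i) * x j)) : EltG G) : Op G) (ξ j)⟫_ℂ) := by
  have h1 : HasSum (fun q : G ⧸ K => ∑ i, ∑ j, ⟪restr K (q.out)⁻¹ (ξ i),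
      ((cmp K (star (x i) * x j) : EltG K) : Op K) (restr K (q.out)⁻¹ (ξ j))⟫_ℂ)
      (∑ i, ∑ j, ⟪ξ i, ((iota K (cmp K (star (x i) * x j)) : EltG G) : Op G) (ξ j)⟫_ℂ) := by
    refine hasSum_sum fun i _ => hasSum_sum fun j _ => ?_
    exact hasSum_coset _ _ _
  refine h1.congr_fun ?_ |> id
  intro q
  have e1 : ∀ i j, ⟪restr K (q.out)⁻¹ (ξ i),
      ((cmp K (star (x i) * x j) : EltG K) : Op K) (restr K (q.out)⁻¹ (ξ j))⟫_ℂ =
      ⟪(x i : Op G) (ext0 K (restr K (q.out)⁻¹ (ξ i))),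
        (x j : Op G) (ext0 K (restr K (q.out)⁻¹ (ξ j)))⟫_ℂ := by
    intro i j
    show ⟪restr K (q.out)⁻¹ (ξ i), restr K 1 ((star (x i : Op G)) ((x j : Op G)
      (ext0 K (restr K (q.out)⁻¹ (ξ j)))))⟫_ℂ = _
    rw [← ContinuousLinearMap.adjoint_inner_left, ContinuousLinearMap.star_eq_adjoint,
      ContinuousLinearMap.adjoint_inner_right]
    rfl
  simp only [e1]
  have e2 : ∀ v : Ell G, ((‖v‖ ^ 2 : ℝ) : ℂ) = ⟪v, v⟫_ℂ := by
    intro v
    rw [inner_self_eq_norm_sq_to_K]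
    push_cast
    rfl
  rw [e2, sum_inner]
  refine Finset.sum_congr rfl fun i _ => ?_
  rw [inner_sum]

variable (K) in
/-- the compression as a linear map -/
noncomputable def cmpL : EltG G →ₗ[ℂ] EltG K where
  toFun := cmp K
  map_add' x y := by
    apply Subtype.ext
    show (restr K 1) ∘L ((x : Op G) + (y : Op G)) ∘L (ext0 K) = _
    rw [ContinuousLinearMap.add_comp, ContinuousLinearMap.comp_add]
    rfl
  map_smul' c x := by
    apply Subtype.ext
    show (restr K 1) ∘L (c • (x : Op G)) ∘L (ext0 K) = _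
    rw [ContinuousLinearMap.smul_comp, ContinuousLinearMap.comp_smul]
    rfl

variable (K) in
/-- the conditional expectation on `L(K)` -/
noncomputable def ce : (tvn G).E →ₗ[ℂ] (tvn G).E :=
  (iotaHom K).toAlgHom.toLinearMap ∘ₗ cmpL K

theorem ce_apply (x : (tvn G).E) : ce K x = iota K (cmp K x) := rfl

theorem vec_ce (x : (tvn G).E) (g : G) :
    vec (ce K x) g = open Classical in if g ∈ K then vec x g else 0 :=
  iota_cmp_delta (K := K) x g

theorem vec_ce' (x : (tvn G).E) : vec (ce K x) = ext0 K (restr K 1 (vec x)) := by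
  classical
  ext g
  rw [vec_ce, ext0_apply]
  split_ifs with h
  · rw [restr_apply, mul_one]
  · rfl

theorem finDim [Finite K] : FiniteDimensional ℂ (Ell K) := by
  have := Fintype.ofFinite K
  exact Module.Finite.equiv (lpPiLpₗᵢ (p := 2) (fun _ : K => ℂ) ℂ).symm.toLinearEquiv

theorem ce_compact [Finite K] (ε : ℝ) (hε : 0 < ε) : ∃ F : Finset (tvn G).E,
    ∀ x : (tvn G).E, (tvn G).norm2 x ≤ 1 → ∃ y ∈ F, (tvn G).norm2 (ce K x - y) < ε := by
  classical
  have := finDim (K := K)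
  have : ProperSpace (Ell K) := FiniteDimensional.proper ℂ (Ell K)
  set A : Set (Ell G) := (fun x : (tvn G).E => vec (ce K x)) '' {x | (tvn G).norm2 x ≤ 1} with hA
  have hT : TotallyBounded A := by
    have h1 : TotallyBounded (ext0 K '' Metric.closedBall (0 : Ell K) 1) :=
      (isCompact_closedBall (0 : Ell K) 1).totallyBounded.image (ext0 K).uniformContinuous
    refine h1.subset ?_
    rintro _ ⟨x, hx, rfl⟩
    refine ⟨restr K 1 (vec x), ?_, (vec_ce' x).symm⟩
    rw [mem_closedBall_zero_iff]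
    have hx' : ‖vec x‖ ≤ 1 := by
      rw [← norm2_eq]
      exact hx
    calc ‖restr K 1 (vec x)‖ ≤ 1 * ‖vec x‖ :=
          ContinuousLinearMap.le_of_opNorm_le _ (norm_restr_le K 1) _
      _ ≤ 1 := by rw [one_mul]; exact hx'
  obtain ⟨t, htA, htf, hcov⟩ := Metric.finite_approx_of_totallyBounded hT ε hε
  choose pre hpre using fun b : t => htA b.2
  have : Finite t := htf
  have : Fintype t := Fintype.ofFinite t
  refine ⟨Finset.univ.image fun b : t => ce K (pre b), ?_⟩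
  intro x hx
  have h1 : vec (ce K x) ∈ A := ⟨x, hx, rfl⟩
  have h2 := hcov h1
  simp only [Set.mem_iUnion] at h2
  obtain ⟨b, hb, hd⟩ := h2
  refine ⟨ce K (pre ⟨b, hb⟩), Finset.mem_image_of_mem _ (Finset.mem_univ _), ?_⟩
  have e : vec (ce K (pre ⟨b, hb⟩)) = b := (hpre ⟨b, hb⟩).2
  rw [norm2_eq, vec_sub, e, ← dist_eq_norm]
  exact hd

theorem cp_lem {n : ℕ} (x : Fin n → EltG G) (ξ : Fin n → Ell G) : ∃ r : ℝ, 0 ≤ r ∧
    ∑ i, ∑ j, ⟪ξ i, ((iota K (cmp K (star (x i) * x j)) : EltG G) : Op G) (ξ j)⟫_ℂ = (r : ℂ) := by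
  have h := cp_core (K := K) x ξ
  obtain ⟨r, hr⟩ : ∃ r : ℝ, HasSum (fun q : G ⧸ K =>
      (‖∑ j, (x j : Op G) (ext0 K (restr K (q.out)⁻¹ (ξ j)))‖ ^ 2 : ℝ)) r :=
    ⟨_, Complex.hasSum_re h⟩
  refine ⟨r, hr.nonneg fun q => sq_nonneg _, ?_⟩
  exact h.unique (Complex.hasSum_ofReal.2 hr)

theorem one_lem : iota K (cmp K (1 : EltG G)) = 1 := by
  classical
  refine iota_cmp_of (K := K) (y := (1 : EltG G)) ?_
  intro g hg
  show (delta (1 : G) : Ell G) g = 0
  rw [delta_apply, if_neg]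
  rintro rfl
  exact hg K.one_mem

theorem trace_lem (x : EltG G) : tau ((iota K (cmp K x) : EltG G) : Op G) = tau (x : Op G) := by
  rw [tau_iota]
  exact cmp_delta (K := K) x 1

theorem ce_isCompactCP [Finite K] : IsCompactCP (tvn G) (ce K) where
  one := one_lem
  trace := trace_lem
  cp := fun _ x ξ => cp_lem (K := K) x ξ
  compact := ce_compact

theorem tendsto_ce (F : ℕ → Subgroup G) (hF : Monotone F) (hU : ∀ g, ∃ n, g ∈ F n)
    (x : (tvn G).E) : Tendsto (fun n => (tvn G).norm2 (ce (F n) x - x)) atTop (𝓝 0) := by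
  classical
  have h1 : Tendsto (fun j => ‖vec (ce (F j) x) - vec x‖ ^ 2) atTop (𝓝 0) := by
    have e : ∀ j, ‖vec (ce (F j) x) - vec x‖ ^ 2 = ∑' g, ‖vec (ce (F j) x) g - vec x g‖ ^ 2 :=
      fun j => (hasSum_sq (vec (ce (F j) x) - vec x)).tsum_eq.symm
    simp only [e]
    have h2 : (0:ℝ) = ∑' _g : G, (0:ℝ) := by simp
    rw [h2]
    refine tendsto_tsum_of_dominated_convergence (bound := fun g => ‖vec x g‖ ^ 2)
      (hasSum_sq (vec x)).summable (fun g => ?_) (Eventually.of_forall fun j g => ?_)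
    · refine tendsto_const_nhds.congr' ?_
      obtain ⟨j0, hj0⟩ := hU g
      filter_upwards [eventually_ge_atTop j0] with j hj
      rw [vec_ce, if_pos (hF hj hj0)]
      simp
    · rw [vec_ce]
      split_ifs
      · simp
      · simp
  have h3 := (Real.continuous_sqrt.tendsto 0).comp h1
  rw [Real.sqrt_zero] at h3
  refine h3.congr fun j => ?_
  simp only [Function.comp_apply]
  rw [norm2_eq, vec_sub]
  exact Real.sqrt_sq (norm_nonneg _)

end HAAs

open HAAs in
/-- **HAA.** -/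
theorem t_HAA : S_HAA := by
  intro H _ F hF hfin hU A ε hε
  have h1 : ∀ᶠ n in atTop, ∀ x ∈ A, (tvn H).norm2 (ce (F n) x - x) < ε := by
    rw [eventually_all_finset]
    intro x _
    exact (tendsto_ce F hF hU x).eventually_lt_const hε
  obtain ⟨n, hn⟩ := h1.exists
  have := hfin n
  exact ⟨ce (F n), ce_isCompactCP, hn⟩

end Pool.Agent.K6.H14.EX
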