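import Pool.Agent.H770R2.Kad.Kap2

/-! # Kaplansky density for a star subalgebra of `B(H)`, all elements -/

set_option autoImplicit false
set_option linter.unusedSectionVars false

open scoped CStarAlgebra ComplexOrder InnerProductSpace
open ContinuousLinearMap

namespace Pool.Agent.K6.H14.EX.Kp

open H759R2.Kad H770R2.Kad

universe u v

section
variable {H : Type v} [NormedAddCommGroup H] [InnerProductSpace ℂ H] [CompleteSpace H]

/-- the self-adjoint 2 by 2 trick -/
noncomputable def hat (x : H →L[ℂ] H) : HH (Fin 2) H →L[ℂ] HH (Fin 2) H :=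
  opMat ![![0, x], ![star x, 0]]

theorem hat_apply0 (x : H →L[ℂ] H) (v : HH (Fin 2) H) : hat x v 0 = x (v 1) := by
  rw [hat, opMat_apply, Fin.sum_univ_two]
  simp

theorem hat_apply1 (x : H →L[ℂ] H) (v : HH (Fin 2) H) : hat x v 1 = star x (v 0) := by
  rw [hat, opMat_apply, Fin.sum_univ_two]
  simp

theorem hat_sa (x : H →L[ℂ] H) : IsSelfAdjoint (hat x) := by
  rw [IsSelfAdjoint, hat, opMat_star]
  congr 1
  funext i j
  fin_cases i <;> fin_cases j <;> simp

theorem hat_norm (x : H →L[ℂ] H) (h : ‖x‖ ≤ 1) : ‖hat x‖ ≤ 1 := by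
  refine opNorm_le_bound _ zero_le_one fun v => ?_
  rw [one_mul]
  refine le_of_sq_le_sq ?_ (norm_nonneg _)
  rw [PiLp.norm_sq_eq_of_L2, PiLp.norm_sq_eq_of_L2, Fin.sum_univ_two, Fin.sum_univ_two,
    hat_apply0, hat_apply1]
  have h1 : ‖x (v 1)‖ ≤ ‖v 1‖ := by
    refine (le_opNorm _ _).trans ?_
    calc ‖x‖ * ‖v 1‖ ≤ 1 * ‖v 1‖ := by gcongr
      _ = ‖v 1‖ := one_mul _
  have h2 : ‖star x (v 0)‖ ≤ ‖v 0‖ := by
    refine (le_opNorm _ _).trans ?_
    rw [norm_star]
    calc ‖x‖ * ‖v 0‖ ≤ 1 * ‖v 0‖ := by gcongr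
      _ = ‖v 0‖ := one_mul _
  nlinarith [norm_nonneg (x (v 1)), norm_nonneg (star x (v 0)), norm_nonneg (v 0),
    norm_nonneg (v 1)]

/-- Kaplansky density for representations, without self-adjointness. -/
theorem kap_rep {A : Type u} [CStarAlgebra A] (π : A →⋆ₐ[ℂ] (H →L[ℂ] H)) (x : H →L[ℂ] H)
    (hx1 : ‖x‖ ≤ 1)
    (hb : ∀ y : H →L[ℂ] H, (∀ a, y * π a = π a * y) → y * x = x * y) (ξ : H) (ε : ℝ)
    (hε : 0 < ε) : ∃ a : A, ‖a‖ ≤ 1 ∧ ‖π a ξ - x ξ‖ < ε := by
  letI : PartialOrder A := CStarAlgebra.spectralOrder A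
  letI : StarOrderedRing A := CStarAlgebra.spectralOrderedRing A
  have hbic : ∀ y : HH (Fin 2) H →L[ℂ] HH (Fin 2) H,
      (∀ X, y * ampHom π (Fin 2) X = ampHom π (Fin 2) X * y) → y * hat x = hat x * y := by
    intro y hy
    let p : Fin 2 → Fin 2 → (H →L[ℂ] H) := fun s t =>
      (PiLp.proj 2 (fun _ : Fin 2 => H) s : HH (Fin 2) H →L[ℂ] H) ∘L y ∘L
        (LinearMap.mkContinuous (inj t : H →ₗ[ℂ] HH (Fin 2) H) 1 (fun w => by
          rw [one_mul, PiLp.norm_eq_of_L2]
          rw [Finset.sum_eq_single t]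
          · simp [inj_apply]
          · intro b _ hb
            simp [inj_apply, hb]
          · simp))
    have hp : ∀ s t w, p s t w = (y (inj t w)) s := fun s t w => rfl
    have key : ∀ (i j : Fin 2) (a : A) (s : Fin 2) (w : H),
        p s i (π a w) = if s = i then π a (p j j w) else 0 := by
      intro i j a s w
      let X : CStarMatrix (Fin 2) (Fin 2) A :=
        CStarMatrix.ofMatrix fun k l => if k = i ∧ l = j then a else 0
      have hX : ∀ (v : HH (Fin 2) H) (k : Fin 2),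
          ampHom π (Fin 2) X v k = if k = i then π a (v j) else 0 := by
        intro v k
        rw [ampHom_apply, amp_apply, Finset.sum_eq_single j]
        · show π (if k = i ∧ j = j then a else 0) (v j) = _
          by_cases h : k = i
          · simp [h]
          · simp [h]
        · intro l _ hl
          show π (if k = i ∧ l = j then a else 0) (v l) = 0
          simp [hl]
        · simp
      have h1 : ampHom π (Fin 2) X (inj j w) = inj i (π a w) := by
        ext k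
        rw [hX, inj_apply, inj_apply]
        simp
      have h2 := congrArg (fun T => (T (inj j w)) s) (hy X)
      simp only [mul_apply_eq_comp] at h2
      rw [h1, ← hp, hX, ← hp] at h2
      exact h2
    have h10 : ∀ w, p 1 0 w = 0 := by
      intro w
      have := key 0 0 1 1 w
      simpa using this
    have h01 : ∀ w, p 0 1 w = 0 := by
      intro w
      have := key 1 1 1 0 w
      simpa using this
    have h11 : ∀ w, p 1 1 w = p 0 0 w := by
      intro w
      have := key 1 0 1 1 w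
      simpa using this
    have hc : ∀ a, p 0 0 * π a = π a * p 0 0 := by
      intro a
      ext w
      rw [mul_apply_eq_comp, mul_apply_eq_comp]
      have := key 0 0 a 0 w
      simpa using this
    have hx := hb _ hc
    have hcs : ∀ a, star (p 0 0) * π a = π a * star (p 0 0) := by
      intro a
      have h := congrArg star (hc (star a))
      rw [star_mul, star_mul, map_star, star_star] at h
      exact h.symm
    have hxs : p 0 0 * star x = star x * p 0 0 := by
      have h := congrArg star (hb _ hcs)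
      rw [star_mul, star_mul, star_star] at h
      exact h.symm
    have hdiag : ∀ (v : HH (Fin 2) H) (s : Fin 2), y v s = p 0 0 (v s) := by
      intro v s
      conv_lhs => rw [← sum_inj v]
      rw [Fin.sum_univ_two, map_add, PiLp.add_apply, ← hp, ← hp]
      fin_cases s
      · show p 0 0 (v 0) + p 0 1 (v 1) = p 0 0 (v 0)
        rw [h01, add_zero]
      · show p 1 0 (v 0) + p 1 1 (v 1) = p 0 0 (v 1)
        rw [h10, zero_add, h11]
    ext v s
    rw [mul_apply_eq_comp, mul_apply_eq_comp, hdiag]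
    fin_cases s
    · show p 0 0 (hat x v 0) = hat x (y v) 0
      rw [hat_apply0, hat_apply0, hdiag, ← mul_apply_eq_comp, hx, mul_apply_eq_comp]
    · show p 0 0 (hat x v 1) = hat x (y v) 1
      rw [hat_apply1, hat_apply1, hdiag, ← mul_apply_eq_comp, hxs, mul_apply_eq_comp]
  obtain ⟨c, -, h2, h3⟩ := prove_kap (CStarMatrix (Fin 2) (Fin 2) A) (HH (Fin 2) H)
    (ampHom π (Fin 2)) (hat x) (hat_sa x) (hat_norm x hx1) hbic 1 (fun _ => inj 1 ξ) ε hε
  refine ⟨c 0 1, (CStarMatrix.norm_entry_le_norm).trans h2, ?_⟩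
  have h4 := PiLp.norm_apply_le (ampHom π (Fin 2) c (inj 1 ξ) - hat x (inj 1 ξ)) 0
  have h5 : (ampHom π (Fin 2) c (inj 1 ξ) - hat x (inj 1 ξ)) 0 = π (c 0 1) ξ - x ξ := by
    rw [PiLp.sub_apply, hat_apply0, ampHom_apply, amp_apply, Fin.sum_univ_two]
    simp [inj_apply]
  rw [h5] at h4
  exact h4.trans_lt (h3 0)

/-- Kaplansky density for star subalgebras of `B(H)`. -/
theorem kap_sub (S : StarSubalgebra ℂ (H →L[ℂ] H)) (x : H →L[ℂ] H)
    (hb : ∀ y : H →L[ℂ] H, (∀ a ∈ S, y * a = a * y) → y * x = x * y) (ξ : H) (ε : ℝ)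
    (hε : 0 < ε) : ∃ a ∈ S, ‖a‖ ≤ ‖x‖ ∧ ‖a ξ - x ξ‖ < ε := by
  by_cases h0 : x = 0
  · refine ⟨0, zero_mem _, by simp, ?_⟩
    rw [h0, sub_self, norm_zero]
    exact hε
  have hM : 0 < ‖x‖ := norm_pos_iff.2 h0
  set M := ‖x‖ with hMdef
  haveI hcl : IsClosed (S.topologicalClosure : Set (H →L[ℂ] H)) :=
    S.isClosed_topologicalClosure
  have hx1 : ‖(M⁻¹ : ℂ) • x‖ ≤ 1 := by
    rw [norm_smul, norm_inv, Complex.norm_real, Real.norm_of_nonneg hM.le, ← hMdef,
      inv_mul_cancel₀ hM.ne']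
  have hb' : ∀ y : H →L[ℂ] H, (∀ a : S.topologicalClosure,
      y * S.topologicalClosure.subtype a = S.topologicalClosure.subtype a * y) →
      y * ((M⁻¹ : ℂ) • x) = ((M⁻¹ : ℂ) • x) * y := by
    intro y hy
    rw [mul_smul_comm, smul_mul_assoc, hb y fun a ha => hy ⟨a, S.le_topologicalClosure ha⟩]
  set η : ℝ := ε / M / (4 * (‖ξ‖ + 1)) with hη
  have hξ : 0 < ‖ξ‖ + 1 := by positivity
  have hη0 : 0 < η := by positivity
  obtain ⟨a, ha1, ha2⟩ := kap_rep (S.topologicalClosure.subtype) ((M⁻¹ : ℂ) • x) hx1 hb' ξ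
    (ε / M / 2) (by positivity)
  have hacl : (a : H →L[ℂ] H) ∈ closure (S : Set (H →L[ℂ] H)) := a.2
  obtain ⟨z, hzS, hz⟩ := Metric.mem_closure_iff.1 hacl η hη0
  rw [dist_eq_norm, norm_sub_rev] at hz
  have hzn : ‖z‖ ≤ 1 + η := by
    calc ‖z‖ = ‖(z - (a : H →L[ℂ] H)) + (a : H →L[ℂ] H)‖ := by rw [sub_add_cancel]
      _ ≤ ‖z - (a : H →L[ℂ] H)‖ + ‖(a : H →L[ℂ] H)‖ := norm_add_le _ _
      _ ≤ η + 1 := add_le_add hz.le ha1
      _ = 1 + η := add_comm _ _
  have h1η : 0 < 1 + η := by positivity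
  refine ⟨((M / (1 + η) : ℝ) : ℂ) • z, S.smul_mem hzS _, ?_, ?_⟩
  · rw [norm_smul, Complex.norm_real, Real.norm_of_nonneg (by positivity)]
    calc M / (1 + η) * ‖z‖ ≤ M / (1 + η) * (1 + η) := by gcongr
      _ = M := by field_simp
  · have e1 : (((M / (1 + η) : ℝ) : ℂ) • z) ξ - x ξ =
        ((M : ℝ) : ℂ) • ((((1 / (1 + η) - 1 : ℝ) : ℂ) • z ξ) + (z - (a : H →L[ℂ] H)) ξ +
          ((a : H →L[ℂ] H) ξ - ((M⁻¹ : ℂ) • x) ξ)) := by
      have hMc : ((M : ℝ) : ℂ) ≠ 0 := by exact_mod_cast hM.ne'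
      rw [_root_.smul_apply, _root_.smul_apply, _root_.sub_apply, smul_add, smul_add, smul_sub,
        smul_sub, smul_smul, smul_smul, mul_inv_cancel₀ hMc, one_smul]
      have e2 : ((M / (1 + η) : ℝ) : ℂ) • z ξ =
          (((M : ℝ) : ℂ) * ((1 / (1 + η) - 1 : ℝ) : ℂ)) • z ξ + ((M : ℝ) : ℂ) • z ξ := by
        rw [← add_smul]
        congr 1
        push_cast
        ring
      rw [e2]
      abel
    rw [e1, norm_smul, Complex.norm_real, Real.norm_of_nonneg hM.le]
    have n1 : ‖(((1 / (1 + η) - 1 : ℝ) : ℂ) • z ξ)‖ ≤ η * ‖ξ‖ := by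
      rw [norm_smul, Complex.norm_real]
      have h3 : (1 / (1 + η) - 1 : ℝ) = - (η / (1 + η)) := by
        field_simp
        ring
      rw [h3, norm_neg, Real.norm_of_nonneg (by positivity)]
      calc η / (1 + η) * ‖z ξ‖ ≤ η / (1 + η) * (‖z‖ * ‖ξ‖) := by
            gcongr
            exact le_opNorm _ _
        _ ≤ η / (1 + η) * ((1 + η) * ‖ξ‖) := by gcongr
        _ = η * ‖ξ‖ := by field_simp
    have n2 : ‖(z - (a : H →L[ℂ] H)) ξ‖ ≤ η * ‖ξ‖ :=
      (le_opNorm _ _).trans (by gcongr)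
    have n3 : ‖(a : H →L[ℂ] H) ξ - ((M⁻¹ : ℂ) • x) ξ‖ < ε / M / 2 := ha2
    have n4 : η * ‖ξ‖ ≤ ε / M / 4 := by
      rw [hη]
      rw [div_mul_eq_mul_div, div_le_div_iff₀ (by positivity) (by norm_num)]
      have : 0 < ε / M := by positivity
      nlinarith [norm_nonneg ξ]
    calc M * ‖(((1 / (1 + η) - 1 : ℝ) : ℂ) • z ξ) + (z - (a : H →L[ℂ] H)) ξ +
          ((a : H →L[ℂ] H) ξ - ((M⁻¹ : ℂ) • x) ξ)‖
        < M * (ε / M) := by
          refine mul_lt_mul_of_pos_left ?_ hM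
          calc _ ≤ ‖(((1 / (1 + η) - 1 : ℝ) : ℂ) • z ξ) + (z - (a : H →L[ℂ] H)) ξ‖ +
                ‖(a : H →L[ℂ] H) ξ - ((M⁻¹ : ℂ) • x) ξ‖ := norm_add_le _ _
            _ ≤ (‖(((1 / (1 + η) - 1 : ℝ) : ℂ) • z ξ)‖ + ‖(z - (a : H →L[ℂ] H)) ξ‖) +
                ‖(a : H →L[ℂ] H) ξ - ((M⁻¹ : ℂ) • x) ξ‖ := by
                gcongr
                exact norm_add_le _ _
            _ < (ε / M / 4 + ε / M / 4) + ε / M / 2 := by
                have := n1.trans n4
                have := n2.trans n4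
                linarith
            _ = ε / M := by ring
      _ = ε := by field_simp

end

end Pool.Agent.K6.H14.EX.Kp
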