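import Pool.Agent.K6.H14.EX.Stm
import Pool.Agent.K6.H14.EX.Base
import Pool.Agent.K6.H14.EX.KapCore

/-! # Kaplansky density for `L(G)` -/

set_option autoImplicit false

namespace Pool.Agent.K6.H14.EX

open Pool.Agent.H667R2.FG (Ell Op permOp lam rho delta LG EltG tau)
open Pool.Agent.H667R2.FG.TL2 (lam_mul lam_one star_lam)

namespace Kp

variable {G : Type} [Group G]

theorem lam_span_mul {a b : Op G} (ha : a ∈ Submodule.span ℂ (Set.range (lam (G := G))))
    (hb : b ∈ Submodule.span ℂ (Set.range (lam (G := G)))) :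
    a * b ∈ Submodule.span ℂ (Set.range (lam (G := G))) := by
  have h := Submodule.mul_mem_mul ha hb
  rw [Submodule.span_mul_span] at h
  refine Submodule.span_mono ?_ h
  rintro _ ⟨_, ⟨g, rfl⟩, _, ⟨k, rfl⟩, rfl⟩
  exact ⟨g * k, lam_mul g k⟩

theorem lam_span_star {a : Op G} (ha : a ∈ Submodule.span ℂ (Set.range (lam (G := G)))) :
    star a ∈ Submodule.span ℂ (Set.range (lam (G := G))) := by
  induction ha using Submodule.span_induction with
  | mem x hx =>
    obtain ⟨g, rfl⟩ := hx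
    rw [star_lam]
    exact Submodule.subset_span ⟨g⁻¹, rfl⟩
  | zero => rw [star_zero]; exact zero_mem _
  | add x y _ _ h1 h2 => rw [star_add]; exact add_mem h1 h2
  | smul c x _ h => rw [star_smul]; exact Submodule.smul_mem _ _ h

/-- the span of the left translations as a star subalgebra -/
noncomputable def lamAlg (G : Type) [Group G] : StarSubalgebra ℂ (Op G) where
  carrier := (Submodule.span ℂ (Set.range (lam (G := G))) : Submodule ℂ (Op G))
  mul_mem' ha hb := lam_span_mul ha hb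
  one_mem' := Submodule.subset_span ⟨1, lam_one⟩
  add_mem' ha hb := add_mem ha hb
  zero_mem' := zero_mem _
  algebraMap_mem' c := by
    rw [Algebra.algebraMap_eq_smul_one]
    exact Submodule.smul_mem _ _ (Submodule.subset_span ⟨1, lam_one⟩)
  star_mem' ha := lam_span_star ha

theorem mem_lamAlg {a : Op G} :
    a ∈ lamAlg G ↔ a ∈ Submodule.span ℂ (Set.range (lam (G := G))) := Iff.rfl

theorem exists_lift {a : Op G} (ha : a ∈ Submodule.span ℂ (Set.range (lam (G := G)))) :
    ∃ y ∈ Submodule.span ℂ (Set.range (lamT (G := G))), toOp y = a := by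
  induction ha using Submodule.span_induction with
  | mem x hx =>
    obtain ⟨g, rfl⟩ := hx
    exact ⟨lamT g, Submodule.subset_span ⟨g, rfl⟩, rfl⟩
  | zero => exact ⟨0, zero_mem _, rfl⟩
  | add x y _ _ h1 h2 =>
    obtain ⟨u, hu, rfl⟩ := h1
    obtain ⟨v, hv, rfl⟩ := h2
    exact ⟨u + v, add_mem hu hv, rfl⟩
  | smul c x _ h =>
    obtain ⟨u, hu, rfl⟩ := h
    exact ⟨c • u, Submodule.smul_mem _ _ hu, rfl⟩

theorem comm_of_mem {x : Op G} (hx : x ∈ LG G) (y : Op G)
    (hy : ∀ a ∈ lamAlg G, y * a = a * y) : y * x = x * y := by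
  have hyc : y ∈ (StarSubalgebra.centralizer ℂ (Set.range (lam (G := G))) :
      StarSubalgebra ℂ (Op G)) := by
    rw [StarSubalgebra.mem_centralizer_iff]
    rintro _ ⟨g, rfl⟩
    refine ⟨(hy _ (Submodule.subset_span ⟨g, rfl⟩)).symm, ?_⟩
    rw [star_lam]
    exact (hy _ (Submodule.subset_span ⟨g⁻¹, rfl⟩)).symm
  have hx' : x ∈ (StarSubalgebra.centralizer ℂ
      ((StarSubalgebra.centralizer ℂ (Set.range (lam (G := G))) :
      StarSubalgebra ℂ (Op G)) : Set (Op G)) : StarSubalgebra ℂ (Op G)) := hx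
  rw [StarSubalgebra.mem_centralizer_iff] at hx'
  exact (hx' y hyc).1

end Kp

theorem t_KAP : S_KAP := by
  intro G _ x ε hε
  obtain ⟨a, ha, h1, h2⟩ := Kp.kap_sub (Kp.lamAlg G) (toOp x)
    (fun y hy => Kp.comm_of_mem x.2 y hy) (delta 1) ε hε
  obtain ⟨y, hy, rfl⟩ := Kp.exists_lift ha
  refine ⟨y, hy, h1, ?_⟩
  rw [norm2_sub_comm, norm2_eq, vec_sub]
  exact h2

end Pool.Agent.K6.H14.EX
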