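import Pool.Agent.K6.H14.EX.Defs

/-!
# Statements of the pieces (MP_02fda4_an)
-/

set_option autoImplicit false

namespace Pool.Agent.K6.H14.EX

open Pool.Agent.H504R3 (TVN)
open Filter Topology
open scoped InnerProductSpace BoundedContinuousFunction

/-- KAP: Kaplansky density for `L(G)`. -/
def S_KAP : Prop := ∀ (G : Type) [Group G] (x : (tvn G).E) (ε : ℝ), 0 < ε →
  ∃ y ∈ Submodule.span ℂ (Set.range (lamT (G := G))),
    (tvn G).opNorm y ≤ (tvn G).opNorm x ∧ (tvn G).norm2 (x - y) < ε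

/-- TT: `L(G)` has property (T) if `G` has. -/
def S_TT : Prop := ∀ (G : Type) [Group G], KazhdanT G → HasPropertyT (tvn G)

/-- CUT: elements `a n` whose `*`-moments `τ((a* a)^m)` are those of `y` can be cut down to the norm
of `y`, up to a sequence which tends to `0` in the 2-norm. -/
def S_CUT : Prop := ∀ (M N : TVN) (y : M.E) (a : ℕ → N.E) (C : ℝ), (∀ n, N.opNorm (a n) ≤ C) →
  (∀ m : ℕ, ∀ᶠ n in atTop, N.τ ((star (a n) * a n) ^ m) = M.τ ((star y * y) ^ m)) →
  ∃ b : ℕ → N.E, (∀ n, N.opNorm (b n) ≤ M.opNorm y) ∧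
    Tendsto (fun n => N.norm2 (a n - b n)) atTop (𝓝 0)

/-- HAA: `L(H)` has the Haagerup property if `H` is locally finite (and countable). -/
def S_HAA : Prop := ∀ (H : Type) [Group H] (F : ℕ → Subgroup H), Monotone F →
  (∀ n, Finite (F n)) → (∀ h, ∃ n, h ∈ F n) → HasHaagerup (tvn H)

/-- FAC: `L(G)` is a II_1 factor if `G` is an infinite ICC group. -/
def S_FAC : Prop := ∀ (G : Type) [Group G] [Infinite G], IsIcc G → (tvn G).IsIIOneFactor

/-- EXT: approximations of `G` by homomorphisms to `H` which are eventually the identity on `H` give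
an approximation of `L(G)` by `L(H)`. -/
def S_EXT : Prop := ∀ (G : Type) [Group G] (H : Subgroup G) (p : ℕ → G →* H),
  (∀ h : H, ∀ᶠ n in atTop, p n (h : G) = h) →
  (∀ g : G, g ≠ 1 → ∀ᶠ n in atTop, p n g ≠ 1) →
  ∃ θ : (tvn G).E → ℕ → (tvn H).E, IsLift (tvn G) (tvn H) θ ∧
    ∀ x : (tvn H).E, Tendsto (fun n => (tvn H).norm2 (θ (iotaT H x) n - x)) atTop (𝓝 0)

/-- ULT: from lifts to an embedding in the ultrapower. -/
def S_ULT : Prop := ∀ (M N : TVN) (ι : N.E →⋆ₐ[ℂ] M.E) (θ : M.E → ℕ → N.E), IsLift M N θ →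
  (∀ x : N.E, Tendsto (fun n => N.norm2 (θ (ι x) n - x)) atTop (𝓝 0)) →
  ∀ U : Ultrafilter ℕ, (∀ n, {n} ∉ U) → IsExistential ι U

/-- GRP: the groups.  `G` has property (T), `H` is the union of the finite groups `F n`, and the
homomorphisms `p n` from `G` to `H` are eventually the identity at every element of `H`, and separate
the points of `G`. -/
def S_GRP : Prop := ∃ (G : Type) (_ : Group G) (H : Subgroup G) (F : ℕ → Subgroup H)
  (p : ℕ → G →* H), Countable G ∧ Infinite H ∧ IsIcc G ∧ IsIcc H ∧ KazhdanT G ∧ Monotone F ∧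
    (∀ n, Finite (F n)) ∧ (∀ h, ∃ n, h ∈ F n) ∧
    (∀ h : H, ∀ᶠ n in atTop, p n (h : G) = h) ∧ (∀ g : G, g ≠ 1 → ∀ᶠ n in atTop, p n g ≠ 1)

end Pool.Agent.K6.H14.EX
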