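import Pool.Agent.K6.H14.EX.Base

/-!
# `L(G)` has property (T) if `G` has
-/

set_option autoImplicit false

namespace Pool.Agent.K6.H14.EX

open Pool.Agent.H504R3 (TVN)
open Pool.Agent.H667R2.FG (Ell Op lam rho delta LG EltG tau)
open Pool.Agent.R283.GV
open Filter Topology
open scoped InnerProductSpace

namespace TT

variable {G : Type} [Group G]

theorem lamT_one : (lamT (1 : G)) = 1 := Subtype.ext Pool.Agent.H667R2.FG.TL2.lam_one

theorem lamT_mul (g h : G) : lamT (g * h) = lamT g * lamT h :=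
  Subtype.ext (Pool.Agent.H667R2.FG.TL2.lam_mul g h)

theorem star_lamT (g : G) : star (lamT g) = lamT g⁻¹ :=
  Subtype.ext (Pool.Agent.H667R2.FG.TL2.star_lam g)

theorem lamT_mul_inv (g : G) : lamT g * lamT g⁻¹ = 1 := by
  rw [← lamT_mul, mul_inv_cancel, lamT_one]

theorem lamT_inv_mul (g : G) : lamT g⁻¹ * lamT g = 1 := by
  rw [← lamT_mul, inv_mul_cancel, lamT_one]

section bimod

variable {K : Type} [NormedAddCommGroup K] [InnerProductSpace ℂ K] [CompleteSpace K]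
  (L : (tvn G).E →⋆ₐ[ℂ] (K →L[ℂ] K)) (R : (tvn G).E →ₗ[ℂ] (K →L[ℂ] K))

/-- the operator `ξ ↦ λ_g ξ λ_g*` -/
noncomputable def conjOp (g : G) : K →L[ℂ] K := L (lamT g) * R (lamT g⁻¹)

variable {L R}

theorem conjOp_one (hB : IsBimodule (tvn G) L R) : conjOp L R (1 : G) = 1 := by
  unfold conjOp
  rw [inv_one, lamT_one, map_one, hB.right_one, one_mul]

theorem conjOp_mul (hB : IsBimodule (tvn G) L R) (g h : G) :
    conjOp L R (g * h) = conjOp L R g * conjOp L R h := by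
  unfold conjOp
  rw [mul_inv_rev, lamT_mul, lamT_mul, map_mul, hB.right_mul]
  rw [mul_assoc, ← mul_assoc (L (lamT h)), hB.comm, mul_assoc, mul_assoc]

theorem star_conjOp (hB : IsBimodule (tvn G) L R) (g : G) :
    star (conjOp L R g) = conjOp L R g⁻¹ := by
  unfold conjOp
  rw [star_mul, ← hB.right_star, ← map_star, star_lamT, star_lamT, hB.comm]

/-- the unitary representation -/
noncomputable def conjRep (hB : IsBimodule (tvn G) L R) : G →* unitary (K →L[ℂ] K) where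
  toFun g := ⟨conjOp L R g, by
    rw [Unitary.mem_iff, star_conjOp hB, ← conjOp_mul hB, ← conjOp_mul hB, inv_mul_cancel,
      mul_inv_cancel, conjOp_one hB]
    exact ⟨rfl, rfl⟩⟩
  map_one' := Subtype.ext (conjOp_one hB)
  map_mul' g h := Subtype.ext (conjOp_mul hB g h)

theorem right_unitary (hB : IsBimodule (tvn G) L R) (g : G) : R (lamT g) ∈ unitary (K →L[ℂ] K) := by
  rw [Unitary.mem_iff, ← hB.right_star, star_lamT, ← hB.right_mul, ← hB.right_mul, lamT_inv_mul,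
    lamT_mul_inv, hB.right_one]
  exact ⟨rfl, rfl⟩

theorem right_conj (hB : IsBimodule (tvn G) L R) (g : G) :
    R (lamT g) * conjOp L R g = L (lamT g) := by
  unfold conjOp
  rw [← mul_assoc, ← hB.comm, mul_assoc, ← hB.right_mul, lamT_inv_mul, hB.right_one, mul_one]

theorem right_conj_apply (hB : IsBimodule (tvn G) L R) (g : G) (ξ : K) :
    R (lamT g) (conjOp L R g ξ - ξ) = L (lamT g) ξ - R (lamT g) ξ := by
  rw [map_sub]
  congr 1
  rw [← right_conj hB g]
  rfl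

theorem norm_conj_sub (hB : IsBimodule (tvn G) L R) (g : G) (ξ : K) :
    ‖conjOp L R g ξ - ξ‖ = ‖L (lamT g) ξ - R (lamT g) ξ‖ := by
  rw [← right_conj_apply hB]
  exact (ContinuousLinearMap.norm_map_of_mem_unitary (right_unitary hB g) _).symm

end bimod

/-! ## Pointwise convergence -/

theorem tendsto_delta {x : (tvn G).E} {y : ℕ → (tvn G).E}
    (h : Tendsto (fun n => (tvn G).norm2 (x - y n)) atTop (𝓝 0)) (g : G) :
    Tendsto (fun n => toOp (y n) (delta g)) atTop (𝓝 (toOp x (delta g))) := by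
  have h1 : Tendsto (fun n => toOp (y n) (delta 1)) atTop (𝓝 (toOp x (delta 1))) := by
    rw [tendsto_iff_norm_sub_tendsto_zero]
    refine h.congr fun n => ?_
    rw [norm2_eq, vec_sub, norm_sub_rev]
    rfl
  have e (z : (tvn G).E) : toOp z (delta g) = rho g⁻¹ (toOp z (delta 1)) := by
    have h2 := Pool.Agent.H667R2.FG.TL2.comm_rho (toOp z) (Subtype.property z) g⁻¹
    have h3 := congrArg (fun T : Op G => T (delta 1)) h2
    simp only [mul_apply_eq_comp] at h3
    rw [← h3, Pool.Agent.H667R2.FG.TL2.rho_delta, inv_inv, one_mul]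
  rw [e]
  simp_rw [e]
  exact ((rho g⁻¹ : Op G).continuous.tendsto _).comp h1

omit [Group G] in
theorem approx_delta (a : Ell G) {ε : ℝ} (hε : 0 < ε) :
    ∃ T : Finset G, ‖a - ∑ g ∈ T, a g • (delta g : Ell G)‖ < ε := by
  classical
  have h1 := lp.hasSum_single (E := fun _ : G => ℂ) (p := 2) (by norm_num) a
  have e : ∀ i, (lp.single 2 i (a i) : Ell G) = (a i) • (delta i : Ell G) := by
    intro i
    unfold delta
    rw [← lp.single_smul]
    congr 1
    simp
  have h2 := (Metric.tendsto_nhds.1 h1 ε hε).exists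
  obtain ⟨T, hT⟩ := h2
  refine ⟨T, ?_⟩
  rw [dist_comm, dist_eq_norm] at hT
  simp_rw [e] at hT
  exact hT

theorem tendsto_apply {x : (tvn G).E} {y : ℕ → (tvn G).E}
    (hb : ∀ n, (tvn G).opNorm (y n) ≤ (tvn G).opNorm x)
    (h : Tendsto (fun n => (tvn G).norm2 (x - y n)) atTop (𝓝 0)) (a : Ell G) :
    Tendsto (fun n => toOp (y n) a) atTop (𝓝 (toOp x a)) := by
  have hC : 0 ≤ (tvn G).opNorm x := op_nonneg _ _
  rw [Metric.tendsto_nhds]
  intro ε hε
  set C := (tvn G).opNorm x with hCdef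
  have hδ : 0 < ε / (4 * (C + 1)) := by positivity
  obtain ⟨T, hT⟩ := approx_delta a hδ
  set b : Ell G := ∑ g ∈ T, a g • (delta g : Ell G) with hb'
  have h1 : Tendsto (fun n => toOp (y n) b) atTop (𝓝 (toOp x b)) := by
    rw [hb', map_sum]
    simp_rw [map_sum, map_smul]
    exact tendsto_finsetSum _ fun g _ => (tendsto_delta h g).const_smul _
  filter_upwards [Metric.tendsto_nhds.1 h1 (ε / 2) (half_pos hε)] with n hn
  rw [dist_eq_norm] at hn ⊢
  have e : toOp (y n) a - toOp x a =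
      toOp (y n) (a - b) + (toOp (y n) b - toOp x b) - toOp x (a - b) := by
    rw [map_sub, map_sub]
    abel
  have h2 : ‖toOp (y n) (a - b)‖ ≤ C * ‖a - b‖ :=
    ((toOp (y n)).le_opNorm _).trans (mul_le_mul_of_nonneg_right (hb n) (norm_nonneg _))
  have h3 : ‖toOp x (a - b)‖ ≤ C * ‖a - b‖ := (toOp x).le_opNorm _
  have h4 : C * ‖a - b‖ ≤ C * (ε / (4 * (C + 1))) := mul_le_mul_of_nonneg_left hT.le hC
  have h5 : C * (ε / (4 * (C + 1))) ≤ ε / 4 := by
    rw [mul_div_assoc', div_le_div_iff₀ (by positivity) (by norm_num)]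
    nlinarith
  rw [e]
  calc _ ≤ ‖toOp (y n) (a - b) + (toOp (y n) b - toOp x b)‖ + ‖toOp x (a - b)‖ := norm_sub_le _ _
    _ ≤ ‖toOp (y n) (a - b)‖ + ‖toOp (y n) b - toOp x b‖ + ‖toOp x (a - b)‖ :=
        add_le_add_left (norm_add_le _ _) _
    _ < ε := by linarith

theorem tendsto_inner {K : Type} [NormedAddCommGroup K] [InnerProductSpace ℂ K]
    {L : (tvn G).E → (K →L[ℂ] K)} (hL : IsNormalMap (tvn G) L)
    {x : (tvn G).E} {y : ℕ → (tvn G).E} (hb : ∀ n, (tvn G).opNorm (y n) ≤ (tvn G).opNorm x)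
    (h : Tendsto (fun n => (tvn G).norm2 (x - y n)) atTop (𝓝 0)) (ξ : K) :
    Tendsto (fun n => ⟪ξ, L (y n) ξ⟫_ℂ) atTop (𝓝 ⟪ξ, L x ξ⟫_ℂ) := by
  obtain ⟨a, ha, hx⟩ := hL ξ
  rw [hx]
  simp_rw [hx]
  refine tendsto_tsum_of_dominated_convergence (bound := fun k => (tvn G).opNorm x * ‖a k‖ ^ 2)
    (ha.mul_left _) ?_ ?_
  · intro k
    exact tendsto_const_nhds.inner (tendsto_apply hb h (a k))
  · refine Eventually.of_forall fun n k => ?_
    refine (norm_inner_le_norm _ _).trans ?_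
    have h1 : ‖toOp (y n) (a k)‖ ≤ (tvn G).opNorm x * ‖a k‖ :=
      ((toOp (y n)).le_opNorm (a k)).trans (mul_le_mul_of_nonneg_right (hb n) (norm_nonneg _))
    calc ‖a k‖ * ‖toOp (y n) (a k)‖ ≤ ‖a k‖ * ((tvn G).opNorm x * ‖a k‖) :=
          mul_le_mul_of_nonneg_left h1 (norm_nonneg _)
      _ = (tvn G).opNorm x * ‖a k‖ ^ 2 := by ring

theorem tendsto_inner' {K : Type} [NormedAddCommGroup K] [InnerProductSpace ℂ K]
    {L : (tvn G).E → (K →L[ℂ] K)} (hL : IsNormalMap (tvn G) L)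
    {x : (tvn G).E} {y : ℕ → (tvn G).E} (hb : ∀ n, (tvn G).opNorm (y n) ≤ (tvn G).opNorm x)
    (h : Tendsto (fun n => (tvn G).norm2 (x - y n)) atTop (𝓝 0)) (η ζ : K) :
    Tendsto (fun n => ⟪L (y n) η, ζ⟫_ℂ) atTop (𝓝 ⟪L x η, ζ⟫_ℂ) := by
  have h1 (ξ : K) : Tendsto (fun n => ⟪L (y n) ξ, ξ⟫_ℂ) atTop (𝓝 ⟪L x ξ, ξ⟫_ℂ) := by
    have h2 := (Complex.continuous_conj.tendsto _).comp (tendsto_inner hL hb h ξ)
    have e (z : (tvn G).E) : (starRingEnd ℂ) ⟪ξ, L z ξ⟫_ℂ = ⟪L z ξ, ξ⟫_ℂ := inner_conj_symm _ _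
    rw [← e]
    refine h2.congr fun n => ?_
    exact e (y n)
  have e (z : (tvn G).E) : ⟪L z η, ζ⟫_ℂ =
      (⟪L z (ζ + η), ζ + η⟫_ℂ - ⟪L z (ζ - η), ζ - η⟫_ℂ +
        Complex.I * ⟪L z (ζ + Complex.I • η), ζ + Complex.I • η⟫_ℂ -
        Complex.I * ⟪L z (ζ - Complex.I • η), ζ - Complex.I • η⟫_ℂ) / 4 :=
    inner_map_polarization (L z : K →ₗ[ℂ] K) ζ η
  rw [e]
  simp_rw [e]
  exact ((((h1 _).sub (h1 _)).add ((h1 _).const_mul _)).sub ((h1 _).const_mul _)).div_const _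

end TT

open TT in
theorem t_TT (hK : S_KAP) : S_TT := by
  classical
  intro G _ hT
  obtain ⟨S, ε, hε, hS⟩ := hT
  refine ⟨S.image lamT, ε, hε, ?_⟩
  intro K _ _ _ L R hB ξ hξ hF
  obtain ⟨η, hη, hη'⟩ := hS K (conjRep hB) ⟨ξ, hξ, fun s hs => by
    have h1 := hF (lamT s) (Finset.mem_image_of_mem _ hs)
    rw [← norm_conj_sub hB] at h1
    exact h1⟩
  refine ⟨η, hη, ?_⟩
  have h1 (g : G) : L (lamT g) η = R (lamT g) η := by
    have h2 : conjOp L R g η = η := hη' g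
    have h3 := right_conj_apply hB g η
    rw [h2, sub_self, map_zero] at h3
    exact (sub_eq_zero.1 h3.symm)
  have h2 (y : (tvn G).E) (hy : y ∈ Submodule.span ℂ (Set.range (lamT (G := G)))) :
      L y η = R y η := by
    induction hy using Submodule.span_induction with
    | mem z hz =>
      obtain ⟨g, rfl⟩ := hz
      exact h1 g
    | zero => rw [map_zero, map_zero]
    | add u v _ _ hu hv =>
      rw [map_add, map_add]
      change L u η + L v η = R u η + R v η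
      rw [hu, hv]
    | smul c u _ hu =>
      rw [map_smul, map_smul]
      change c • L u η = c • R u η
      rw [hu]
  intro x
  have h3 (n : ℕ) : ∃ y ∈ Submodule.span ℂ (Set.range (lamT (G := G))),
      (tvn G).opNorm y ≤ (tvn G).opNorm x ∧ (tvn G).norm2 (x - y) < 1 / ((n : ℝ) + 1) :=
    hK G x _ (by positivity)
  choose y hy1 hy2 hy3 using h3
  have h4 : Tendsto (fun n => (tvn G).norm2 (x - y n)) atTop (𝓝 0) :=
    squeeze_zero (fun n => norm2_nonneg _ _) (fun n => (hy3 n).le)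
      tendsto_one_div_add_atTop_nhds_zero_nat
  refine ext_inner_right ℂ fun ζ => ?_
  have h5 := tendsto_inner' hB.left_normal hy2 h4 η ζ
  have h6 := tendsto_inner' hB.right_normal hy2 h4 η ζ
  refine tendsto_nhds_unique (h5.congr fun n => ?_) h6
  rw [h2 (y n) (hy1 n)]

end Pool.Agent.K6.H14.EX
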