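import Pool.Agent.K6.H14.EX.Base

/-!
# ULT: from lifts to an embedding in the tracial ultrapower
-/

set_option autoImplicit false

namespace Pool.Agent.K6.H14.EX

open Pool.Agent.H504R3 (TVN)
open Filter Topology
open scoped BoundedContinuousFunction

theorem t_ULT : S_ULT := by
  intro M N ι θ hθ hι U hU
  have hle : (U : Filter ℕ) ≤ atTop := by
    rw [← Nat.cofinite_eq_atTop]
    rcases Ultrafilter.le_cofinite_or_eq_pure U with h | ⟨a, h⟩
    · exact h
    · exfalso
      apply hU a
      rw [h]
      exact Ultrafilter.mem_pure.2 rfl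
  obtain ⟨Q, i1, i2, i3, i4, π, σ, hπ⟩ :=
    Pool.Agent.Helper278.exists_ultrapower (tstate N) U
  have hpi : ∀ x y, π x = π y ↔ Tendsto (fun n => N.norm2 (x n - y n)) U (𝓝 0) :=
    Pool.Agent.Helper278.pi_eq_iff hπ
  let b : M.E → (ℕ →ᵇ N.E) := fun x =>
    BoundedContinuousFunction.ofNormedAddCommGroupDiscrete (θ x) (M.opNorm x)
      (fun n => hθ.bdd x n)
  have hb : ∀ x n, b x n = θ x n := fun x n => rfl
  have hone : π (b 1) = 1 := by
    rw [← map_one π, hpi]
    exact hθ.one.mono_left hle
  have hmul : ∀ x y, π (b (x * y)) = π (b x) * π (b y) := by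
    intro x y
    rw [← map_mul π, hpi]
    exact (hθ.mul x y).mono_left hle
  have hadd : ∀ x y, π (b (x + y)) = π (b x) + π (b y) := by
    intro x y
    rw [← map_add π, hpi]
    exact (hθ.add x y).mono_left hle
  have hsmul : ∀ (c : ℂ) x, π (b (c • x)) = c • π (b x) := by
    intro c x
    rw [← map_smul π, hpi]
    exact (hθ.smul c x).mono_left hle
  have hstar : ∀ x, π (b (star x)) = star (π (b x)) := by
    intro x
    rw [← map_star π, hpi]
    exact (hθ.star x).mono_left hle
  have hzero : π (b 0) = 0 := by
    have h := hsmul 0 0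
    rwa [zero_smul, zero_smul] at h
  refine ⟨Q, i1, i2, i3, i4, π, σ, hπ,
    { toFun := fun x => π (b x)
      map_one' := hone
      map_mul' := hmul
      map_zero' := hzero
      map_add' := hadd
      commutes' := fun r => by
        rw [Algebra.algebraMap_eq_smul_one, Algebra.algebraMap_eq_smul_one]
        exact (hsmul r 1).trans (by rw [hone])
      map_star' := hstar }, ?_, ?_⟩
  · intro x
    exact tendsto_nhds_unique (hπ.trace (b x)) ((hθ.trace x).mono_left hle)
  · intro x
    show π (b (ι x)) = _
    rw [hpi]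
    exact (hι x).mono_left hle

end Pool.Agent.K6.H14.EX
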